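import Pool.Agent.H19.STAT.Sys2

/-!
# The field `full` of a cell

`full2_of`: if the positions of the base coordinates to `J` digits have the entropy which is given by
the precisions of the labels, given the context and the time, then the natural digits of the heights
over the labels at the point are full, at all depths.
-/

set_option autoImplicit false

namespace Pool.STAT.Ful2

open Finset MvPolynomial
open Pool.Agent.H49.Ent Pool.Agent.H32.Dense Pool.STK Pool.KS3

section gen

variable {Ω U : Type} [Fintype Ω] {q : Ω → ℝ}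

/-- Triangular vectors of integers. -/
theorem ch_vec (hq : IsLaw q) {n : ℕ} (Y : Ω → Fin n → ℤ) (W : Ω → U) (b : ℕ → ℝ)
    (hb : ∀ i : Fin n, ∀ ω ω', 0 < q ω → 0 < q ω' → W ω = W ω' → (∀ j < i, Y ω j = Y ω' j) →
      |((Y ω i - Y ω' i : ℤ) : ℝ)| ≤ b i) :
    CH q Y W ≤ ∑ i ∈ range n, Real.log (2 * b i + 1) := by
  have H : ∀ m ≤ n, CH q (fun ω (j : Fin n) => if (j : ℕ) < m then Y ω j else 0) W ≤
      ∑ i ∈ range m, Real.log (2 * b i + 1) := by
    intro m
    induction m with
    | zero =>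
      intro _
      rw [Finset.sum_range_zero]
      refine le_of_eq (CH_eq_zero hq.nonneg fun ω ω' _ _ _ => ?_)
      rfl
    | succ m ih =>
      intro hm
      have hm' : m < n := hm
      have h1 := ih hm'.le
      have h2 : CH q (fun ω => Y ω ⟨m, hm'⟩)
          (fun ω => ((fun j : Fin n => if (j : ℕ) < m then Y ω j else 0), W ω)) ≤
          Real.log (2 * b m + 1) := by
        have h3 := CH_le_int hq.nonneg hq.sum_one (fun ω => Y ω ⟨m, hm'⟩)
          (fun ω => ((fun j : Fin n => if (j : ℕ) < m then Y ω j else 0), W ω))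
          (fun _ => b m) (fun ω ω' h h' e => by
            simp only [Prod.mk.injEq] at e
            refine hb ⟨m, hm'⟩ ω ω' h h' e.2 fun j hj => ?_
            have h4 := congrFun e.1 j
            have h5 : (j : ℕ) < m := hj
            simp only [h5, if_true] at h4
            exact h4)
        rw [Ex_const hq.sum_one] at h3
        exact h3
      have h3 := CH_chain hq.nonneg (fun ω => Y ω ⟨m, hm'⟩)
        (fun ω (j : Fin n) => if (j : ℕ) < m then Y ω j else 0) W
      have h4 : CH q (fun ω (j : Fin n) => if (j : ℕ) < m + 1 then Y ω j else 0) W ≤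
          CH q (fun ω => (Y ω ⟨m, hm'⟩,
            fun j : Fin n => if (j : ℕ) < m then Y ω j else 0)) W := by
        refine CH_mono_left hq.nonneg fun ω ω' _ _ e => ?_
        simp only [Prod.mk.injEq] at e
        funext j
        by_cases hj : (j : ℕ) < m
        · have h5 := congrFun e.1.2 j
          simp only [hj, if_true] at h5
          have h6 : (j : ℕ) < m + 1 := by omega
          simp only [h6, if_true]
          exact h5
        · by_cases hj2 : (j : ℕ) = m
          · have h6 : (j : ℕ) < m + 1 := by omega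
            have h7 : j = ⟨m, hm'⟩ := Fin.ext hj2
            simp only [h6, if_true]
            rw [h7]
            exact e.1.1
          · have h6 : ¬ (j : ℕ) < m + 1 := by omega
            simp only [h6, if_false]
      rw [Finset.sum_range_succ]
      linarith
  have h1 := H n le_rfl
  have h2 : (fun ω (j : Fin n) => if (j : ℕ) < n then Y ω j else 0) = Y := by
    funext ω j
    exact if_pos j.2
  rw [h2] at h1
  exact h1

theorem fl_le {x y : ℝ} {a : ℝ} (h : |x - y| ≤ a) : |((⌊x⌋ - ⌊y⌋ : ℤ) : ℝ)| ≤ a + 1 := by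
  push_cast
  have h1 := Int.floor_le x
  have h2 := Int.lt_floor_add_one x
  have h3 := Int.floor_le y
  have h4 := Int.lt_floor_add_one y
  rw [abs_le] at h ⊢
  constructor <;> linarith [h.1, h.2]

theorem fl_eq {x y : ℝ} (h : ⌊x⌋ = ⌊y⌋) : |x - y| ≤ 1 := by
  have h1 := Int.floor_le x
  have h2 := Int.lt_floor_add_one x
  have h3 := Int.floor_le y
  have h4 := Int.lt_floor_add_one y
  rw [h] at h1 h2
  rw [abs_le]
  constructor <;> linarith

/-- **From positions to heights.** `x` positions, `y` values of the labels, `g` precisions. Two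
samples with the same context whose coordinates before `i` are near have near values of the label of
the coordinate `i`. If the positions to `J` digits have the entropy `∑ (J - g i)`, then the `u` digits
of the heights are full. -/
theorem full_core (hq : IsLaw q) {n J u : ℕ} (x y : Ω → ℕ → ℝ) (g : ℕ → ℕ) (W : Ω → U)
    {L ε : ℝ} (hL : 0 ≤ L) (hg : ∀ i < n, g i + u ≤ J)
    (hlip : ∀ ω ω', 0 < q ω → 0 < q ω' → W ω = W ω' → ∀ i < n,
      (∀ j < i, |x ω j - x ω' j| ≤ 1 / 2 ^ J) → |y ω i - y ω' i| ≤ L / 2 ^ (g i + u))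
    (hY : (∑ i ∈ range n, ((J : ℝ) - g i)) * Real.log 2 - ε ≤
      CH q (fun ω (i : Fin n) => ⌊(2 : ℝ) ^ J * x ω i⌋) W) :
    n * (u * Real.log 2) - (ε + n * Real.log (5 + 2 * L)) ≤
      CH q (fun ω (i : Fin n) => ⌊(2 : ℝ) ^ (g i + u) * (x ω i - y ω i)⌋) W := by
  have hJ : (0 : ℝ) < 2 ^ J := by positivity
  have h1 := CH_le_add hq.nonneg (fun ω (i : Fin n) => ⌊(2 : ℝ) ^ J * x ω i⌋)
    (fun ω (i : Fin n) => ⌊(2 : ℝ) ^ (g i + u) * (x ω i - y ω i)⌋) W
  have h2 := ch_vec hq (fun ω (i : Fin n) => ⌊(2 : ℝ) ^ J * x ω i⌋)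
    (fun ω => ((fun i : Fin n => ⌊(2 : ℝ) ^ (g i + u) * (x ω i - y ω i)⌋), W ω))
    (fun i => (1 + L) * 2 ^ (J - (g i + u)) + 1) (fun i ω ω' h h' e hj => by
      simp only [Prod.mk.injEq] at e
      have h3 : |(x ω i - y ω i) - (x ω' i - y ω' i)| ≤ 1 / 2 ^ (g i + u) := by
        have h4 := fl_eq (congrFun e.1 i)
        rw [← mul_sub, abs_mul, abs_of_pos (by positivity)] at h4
        rw [le_div_iff₀' (by positivity)]
        exact h4
      have h4 := hlip ω ω' h h' e.2 i i.2 (fun j hji => by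
        have h5 := fl_eq (hj ⟨j, by omega⟩ hji)
        rw [← mul_sub, abs_mul, abs_of_pos hJ] at h5
        rw [le_div_iff₀' hJ]
        exact h5)
      have h5 : x ω i - x ω' i = ((x ω i - y ω i) - (x ω' i - y ω' i)) + (y ω i - y ω' i) := by
        ring
      have h6 : |(2 : ℝ) ^ J * x ω i - 2 ^ J * x ω' i| ≤
          (1 + L) * 2 ^ (J - (g i + u)) := by
        rw [← mul_sub, abs_mul, abs_of_pos hJ, h5]
        have h7 : (2 : ℝ) ^ J * (1 / 2 ^ (g i + u)) = 2 ^ (J - (g i + u)) := by
          rw [mul_one_div, div_eq_iff (by positivity), ← pow_add]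
          congr 1
          have := hg i i.2
          omega
        calc (2 : ℝ) ^ J * |_| ≤ 2 ^ J * (1 / 2 ^ (g i + u) + L / 2 ^ (g i + u)) :=
              mul_le_mul_of_nonneg_left ((abs_add_le _ _).trans (add_le_add h3 h4)) hJ.le
          _ = (1 + L) * (2 ^ J * (1 / 2 ^ (g i + u))) := by ring
          _ = (1 + L) * 2 ^ (J - (g i + u)) := by rw [h7]
      exact fl_le h6)
  have h3 : ∑ i ∈ range n, Real.log (2 * ((1 + L) * 2 ^ (J - (g i + u)) + 1) + 1) ≤
      ∑ i ∈ range n, ((((J : ℝ) - g i) * Real.log 2 - u * Real.log 2) +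
        Real.log (5 + 2 * L)) := by
    refine Finset.sum_le_sum fun i hi => ?_
    have hi' := hg i (mem_range.1 hi)
    have h4 : (1 : ℝ) ≤ 2 ^ (J - (g i + u)) := one_le_pow₀ (by norm_num)
    have h5 : 2 * ((1 + L) * (2 : ℝ) ^ (J - (g i + u)) + 1) + 1 ≤
        2 ^ (J - (g i + u)) * (5 + 2 * L) := by nlinarith
    refine (Real.log_le_log (by positivity) h5).trans (le_of_eq ?_)
    rw [Real.log_mul (by positivity) (by positivity), Real.log_pow, Nat.cast_sub hi']
    push_cast
    ring
  rw [Finset.sum_add_distrib, Finset.sum_sub_distrib, ← Finset.sum_mul, Finset.sum_const,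
    Finset.sum_const, Finset.card_range, nsmul_eq_mul, nsmul_eq_mul] at h3
  linarith

end gen

/-- **The field `full` of a cell.** -/
theorem full2_of {D : NDat2} {q : D.Ω → ℝ} (hq : IsLaw q) {n J i j u : ℕ} {L ε : ℝ}
    (hL : 0 ≤ L) (hg : ∀ l, 1 ≤ l → l < n → D.g i j l + u ≤ J)
    (hlip : ∀ ω ω', 0 < q ω → 0 < q ω' → D.c i j ω = D.c i j ω' → D.T ω = D.T ω' →
      ∀ l, 1 ≤ l → l < n →
      (∀ k, 1 ≤ k → k < l → |D.X ω k - D.X ω' k| ≤ 1 / 2 ^ J) →
      |eval (D.X ω) (D.Ψ i j ω l) - eval (D.X ω') (D.Ψ i j ω' l)| ≤ L / 2 ^ (D.g i j l + u))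
    (hY : (∑ l ∈ Ico 1 n, ((J : ℝ) - D.g i j l)) * Real.log 2 - ε ≤
      CH q (fun ω (l : Fin (n - 1)) => ⌊(2 : ℝ) ^ J * D.X ω (l + 1)⌋)
        (fun ω => (D.c i j ω, D.T ω))) :
    ((n - 1 : ℕ) : ℝ) * (u * Real.log 2) - (ε + (n - 1 : ℕ) * Real.log (5 + 2 * L)) ≤
      CH q (D.vd n i j u) (fun ω => (D.c i j ω, D.T ω)) := by
  have hs : ∑ l ∈ range (n - 1), ((J : ℝ) - (fun l => D.g i j (l + 1)) l) =
      ∑ l ∈ Ico 1 n, ((J : ℝ) - D.g i j l) := by
    rw [Finset.range_eq_Ico, Finset.sum_Ico_add' (fun l => ((J : ℝ) - D.g i j l)) 0 (n - 1) 1]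
    by_cases hn : 1 ≤ n
    · rw [Nat.sub_add_cancel hn, zero_add]
    · have : n = 0 := by omega
      subst this
      simp
  rw [← hs] at hY
  exact full_core hq (n := n - 1) (J := J) (u := u) (fun ω l => D.X ω (l + 1))
    (fun ω l => eval (D.X ω) (D.Ψ i j ω (l + 1))) (fun l => D.g i j (l + 1))
    (fun ω => (D.c i j ω, D.T ω)) hL (fun l hl => hg (l + 1) (by omega) (by omega))
    (fun ω ω' h h' e l hl hk => by
      simp only [Prod.mk.injEq] at e
      refine hlip ω ω' h h' e.1 e.2 (l + 1) (by omega) (by omega) fun k k1 k2 => ?_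
      have h1 := hk (k - 1) (by omega)
      rwa [Nat.sub_add_cancel k1] at h1) hY

end Pool.STAT.Ful2
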