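import Pool.Agent.H40.MIC.Grd2N
import Pool.Agent.H90.STAT.CloN
import Pool.Agent.H68.STAT.Ful2

/-!
# The field `full` at the grid

`near_gx`: the variation of the polynomials of the exact label at the point in small cells.
`full_gdat`: if the positions of the base coordinates to `J` digits have the entropy which is given by
the precisions, given the context and the time, then the natural digits of the heights over the label
at the point are full.
-/

set_option autoImplicit false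

namespace Pool.STAT

open Finset MvPolynomial
open Pool.Agent.H49.Ent Pool.Agent.H32.Dense Pool.STK Pool.KS3 Pool.KA Pool.KSAT Pool.PB Pool.GEN
open Pool.K2S

namespace CLO

/-- **The variation of the exact label at the point**, coordinates `1, …, r`. -/
theorem near_gx (n r K K' s₁ : ℕ) (sh : ℕ → ℕ) (hr : r ≤ n) (hK' : 1 ≤ K') :
    ∃ (L : ℝ) (s₂ : ℕ), 1 ≤ L ∧
    ∀ (m J : ℕ) (F : Fam m J) (c : ℕ → Fin m) (a : ℕ) (g E : ℕ → ℕ) (y : ℕ)
    (G : ℕ → MvPolynomial (Option (Fin m)) ℝ) (P : ℕ → PN) (ω : F.Ω), a ≤ J → Inj c n →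
    (∀ i < n, (G i).totalDegree ≤ K) → (∀ i, DepC c i (G i)) →
    (∀ i < r, ∀ b : Option (Fin m) → ℝ, NBx c G g a (F.t ω) i b → ∀ l < i,
      |eval b (pderiv (some (c l)) (G i))| ≤ 2 ^ E i) →
    (∀ i, 1 ≤ i → i ≤ r → (P i).vars ⊆ range i) → (∀ i, 1 ≤ i → i ≤ r →
      (P i).totalDegree ≤ K') → P 0 = MvPolynomial.C (F.t ω) →
    Nr K' (2 ^ s₁) (gg a g) P (sy c n (F.t ω) G) (n + 1) →
    (∀ i, 1 ≤ i → i ≤ r → |cx F (fun i => c (i - 1)) ω i -
      eval (cx F (fun i => c (i - 1)) ω) (P i)| ≤ 1 / 2 ^ (g (i - 1) - sh i)) →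
    (∀ i < r, sh (i + 1) ≤ g i) → (∀ i < r, g i + y + E i + s₂ ≤ J) →
    ∀ b : ℕ → ℝ, b 0 = F.t ω → ∀ i, 1 ≤ i → i ≤ r →
    (∀ j, 1 ≤ j → j < i → |b j - cx F (fun i => c (i - 1)) ω j| ≤ 1 / 2 ^ J) →
    |eval b (P i) - eval (cx F (fun i => c (i - 1)) ω) (P i)| ≤
      L / 2 ^ (g (i - 1) - sh i + y) := by
  obtain ⟨K₂, hK₂⟩ : ∃ K₂, K₂ = max K K' := ⟨_, rfl⟩
  obtain ⟨C₁, hC₁, hdil⟩ := dil n K₂
  obtain ⟨K₁, hK₁⟩ : ∃ K₁, K₁ = K₂ * (K₂ + 1) ^ (n + 1) := ⟨_, rfl⟩
  rw [← hK₁] at hdil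
  obtain ⟨M, hM⟩ := cc_le K' n
  obtain ⟨SH, hSH⟩ : ∃ SH, SH = ∑ i ∈ range (n + 1), sh i := ⟨_, rfl⟩
  have hSHle : ∀ i ≤ n, sh i ≤ SH := fun i hi => by
    rw [hSH]
    exact Finset.single_le_sum (f := sh) (fun _ _ => Nat.zero_le _) (mem_range.2 (by omega))
  obtain ⟨Θ, hΘ⟩ : ∃ Θ : ℝ, Θ = 2 * K' * 2 ^ s₁ * 2 ^ SH := ⟨_, rfl⟩
  have hK1 : (1 : ℝ) ≤ K' := by exact_mod_cast hK'
  have hs1 : (1 : ℝ) ≤ 2 ^ s₁ := one_le_pow₀ (by norm_num)
  have hs2 : (1 : ℝ) ≤ 2 ^ SH := one_le_pow₀ (by norm_num)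
  have hΘ1 : 1 ≤ Θ := by
    rw [hΘ]
    have h1 : (1 : ℝ) ≤ 2 * K' := by linarith
    have h2 : (1 : ℝ) ≤ 2 * K' * 2 ^ s₁ := by nlinarith
    nlinarith
  obtain ⟨ρ, hρ⟩ : ∃ ρ : ℝ, ρ = Θ ^ M := ⟨_, rfl⟩
  have hρ1 : 1 ≤ ρ := by
    rw [hρ]
    exact one_le_pow₀ hΘ1
  obtain ⟨S, hS⟩ : ∃ S : ℝ, S = (K' * 2 ^ s₁ * ρ) ^ K' := ⟨_, rfl⟩
  have hS0 : 0 ≤ S := by
    rw [hS]
    positivity
  obtain ⟨s₂, hs₂⟩ := pow_unbounded_of_one_lt (C₁ * ρ ^ K₁) (one_lt_two (α := ℝ))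
  obtain ⟨L, hL, hnear⟩ := NEAR.near r K₂ hS0
  refine ⟨L, s₂, hL, ?_⟩
  intro m J F c a g E y G P ω ha hc hGK hdep hlip hPv hPd hP0 hNr hfit hsh hsiz b hb0 i hi1 hi hb
  obtain ⟨x, hx⟩ : ∃ x, x = cx F (fun i => c (i - 1)) ω := ⟨_, rfl⟩
  have hx0 : x 0 = F.t ω := by
    rw [hx]
    exact if_pos rfl
  rw [← hx] at hfit hb ⊢
  obtain ⟨P', hP'⟩ : ∃ P' : ℕ → PN, P' = fun i => if i = 0 then MvPolynomial.C (F.t ω) else
    if i ≤ r then P i else 0 := ⟨_, rfl⟩
  have eP0 : P' 0 = MvPolynomial.C (F.t ω) := by rw [hP']; exact if_pos rfl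
  have eP : ∀ j, 1 ≤ j → j ≤ r → P' j = P j := by
    intro j h1 h2
    rw [hP']
    show (if j = 0 then _ else if j ≤ r then P j else 0) = P j
    rw [if_neg (by omega), if_pos h2]
  obtain ⟨g', hg'⟩ : ∃ g' : ℕ → ℕ, g' = fun i => if i = 0 then J else g (i - 1) - sh i := ⟨_, rfl⟩
  have eg0 : g' 0 = J := by rw [hg']; exact if_pos rfl
  have eg : ∀ j, 1 ≤ j → g' j = g (j - 1) - sh j := by
    intro j h1
    rw [hg']
    exact if_neg (by omega)
  have pJ : (1 : ℝ) / 2 ^ J ≤ 1 / 2 ^ a :=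
    one_div_le_one_div_of_le (by positivity) (pow_le_pow_right₀ (by norm_num) ha)
  -- the boxes
  have box1 : ∀ j, 1 ≤ j → j ≤ r → ∀ b : ℕ → ℝ, Bx g' P' j b →
      Bxr (2 ^ SH) (gg a g) P j b := by
    intro j hj1 hj b hb l hl
    rcases Nat.eq_zero_or_pos l with rfl | hl0
    · have h1 := hb 0 hl
      rw [eP0, eval_C, eg0] at h1
      rw [hP0, eval_C]
      have h3 : gg a g 0 = a := if_pos rfl
      rw [h3]
      exact (h1.trans pJ).trans (div_le_div_of_nonneg_right hs2 (by positivity))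
    · have h1 := hb l hl
      rw [eP l hl0 (by omega), eg l hl0] at h1
      have h3 : gg a g l = g (l - 1) := if_neg (by omega)
      rw [h3]
      refine h1.trans ?_
      have h4 := hsh (l - 1) (by omega)
      rw [Nat.sub_add_cancel hl0] at h4
      have h5 := hSHle l (by omega)
      rw [div_le_div_iff₀ (by positivity) (by positivity), one_mul, ← pow_add]
      exact pow_le_pow_right₀ (by norm_num) (by omega)
  have box2 : ∀ j, 1 ≤ j → j ≤ r → ∀ b : ℕ → ℝ, Bx g' P' j b →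
      Bxr ρ (gg a g) (sy c n (F.t ω) G) j b := by
    intro j hj1 hj b hb
    have h1 := Nr.box hK' hs1 (hNr.mono (show j ≤ n + 1 by omega)) hs2 (box1 j hj1 hj b hb) j le_rfl
    refine h1.mono ?_ le_rfl
    rw [hρ, hΘ]
    rw [hΘ] at hΘ1
    exact pow_le_pow_right₀ hΘ1 (hM j (by omega))
  have hd : NEAR.Dat r K₂ S P' (sy c n (F.t ω) G) g' x (fun j => E (j - 1) + s₂) J y := by
    refine
      { tri := fun j => ?_
        deg := fun j => ?_
        triG := fun j _ _ => sy_tri j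
        degG := fun j _ _ => (sy_deg hGK j).trans (by rw [hK₂]; exact le_max_left _ _)
        zero := by rw [eP0, hx0]
        fit := fun j h1 h2 => ?_
        near := fun j h1 h2 b hb => ?_
        lip := fun j h1 h2 b hb l hl1 hl => ?_
        siz := fun j h1 h2 => ?_ }
    · rw [hP']
      show (if j = 0 then MvPolynomial.C (F.t ω) else if j ≤ r then P j else 0).vars ⊆ range j
      split_ifs with h1 h2
      · rw [vars_C]
        exact Finset.empty_subset _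
      · exact hPv j (by omega) h2
      · rw [vars_0]
        exact Finset.empty_subset _
    · rw [hP']
      show (if j = 0 then MvPolynomial.C (F.t ω) else if j ≤ r then P j else 0).totalDegree ≤ K₂
      split_ifs with h1 h2
      · rw [totalDegree_C]
        exact Nat.zero_le _
      · exact (hPd j (by omega) h2).trans (by rw [hK₂]; exact le_max_right _ _)
      · rw [totalDegree_zero]
        exact Nat.zero_le _
    · rw [eP j h1 h2, eg j h1]
      exact hfit j h1 h2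
    · have h3 := hNr.2 j h1 (by omega) ρ hρ1 b (box2 j h1 h2 b hb)
      have h4 : gg a g j = g (j - 1) := if_neg (by omega)
      rw [h4, ← hS] at h3
      rw [eP j h1 h2, eg j h1, abs_sub_comm]
      exact h3.trans (div_le_div_of_nonneg_left hS0 (by positivity)
        (pow_le_pow_right₀ (by norm_num) (Nat.sub_le _ _)))
    · obtain ⟨j, rfl⟩ : ∃ j', j = j' + 1 := ⟨j - 1, by omega⟩
      obtain ⟨l, rfl⟩ : ∃ l', l = l' + 1 := ⟨l - 1, by omega⟩
      have h3 : (sy c n (F.t ω) G (j + 1)) = tr c j (G j) := sy_succ (by omega)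
      have h4 : ∀ b : ℕ → ℝ, Bxr 1 (gg a g) (sy c n (F.t ω) G) (j + 1) b →
          |eval b (pderiv (l + 1) (tr c j (G j)))| ≤ 2 ^ E j := by
        intro b hb
        have h5 := nbx_of_bxr hc hdep (by omega) hb
        have h6 := hlip j (by omega) _ h5 l (by omega)
        rw [pd_tr hc (by omega) (by omega)]
        unfold tr
        rw [AdxRow.evl_bnd]
        exact h6
      rw [h3]
      refine (hdil (sy c n (F.t ω) G) (gg a g) (pderiv (l + 1) (tr c j (G j))) (j + 1) (2 ^ E j) ρ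
        sy_tri (fun i => (sy_deg hGK i).trans (by rw [hK₂]; exact le_max_left _ _)) (by omega)
        ((NEAR.vars_pd _ _).trans (tr_vars _ _ _))
        (NEAR.deg_pd ((tr_deg _ _ _).trans ((hGK j (by omega)).trans
          (by rw [hK₂]; exact le_max_left _ _))) _) hρ1 h4 b (box2 (j + 1) h1 h2 b hb)).trans ?_
      show _ ≤ (2 : ℝ) ^ (E (j + 1 - 1) + s₂)
      rw [Nat.add_sub_cancel, pow_add]
      have h5 : (0 : ℝ) < 2 ^ E j := by positivity
      nlinarith
    · have h3 := hsiz (j - 1) (by omega)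
      rw [eg j h1]
      show g (j - 1) - sh j + y + (E (j - 1) + s₂) ≤ J
      omega
  have h1 := hnear P' (sy c n (F.t ω) G) g' x (fun j => E (j - 1) + s₂) J y hd
    (fun j => if j < i then b j else x j) (by
      show (if 0 < i then b 0 else x 0) = x 0
      rw [if_pos (by omega), hb0, hx0]) (fun j _ => by
      show |(if j < i then b j else x j) - x j| ≤ _
      split_ifs with h
      · rcases Nat.eq_zero_or_pos j with rfl | hj0
        · rw [hb0, hx0, sub_self, abs_zero]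
          positivity
        · exact hb j hj0 h
      · rw [sub_self, abs_zero]
        positivity) i hi
  rw [eP i hi1 hi, eg i hi1] at h1
  have h2 : eval (fun j => if j < i then b j else x j) (P i) = eval b (P i) :=
    eval_cg (hPv i hi1 hi) fun j hj => if_pos hj
  rwa [h2] at h1

/-- **The field `full` at the grid**, one pair `(i, j)`, depth `u`. -/
theorem full_gdat (n K K' s₁ : ℕ) (sh : ℕ → ℕ) (hK' : 1 ≤ K') : ∃ (L : ℝ) (s₂ : ℕ), 1 ≤ L ∧
    ∀ {m J : ℕ} {F : Fam m J} {D : GDat F} {c : ℕ → Fin m} {M a₀ w₀ z : ℕ} {e : ℕ → ℕ → ℕ}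
    {g : ℕ → ℕ → ℕ → ℕ} {B : F.Ω → Prop}, D.Ok c n K K' s₁ sh a₀ w₀ z M e g B → Inj c n →
    a₀ + M * z ≤ J → ∀ {q : F.Ω → ℝ}, IsLaw q → (∀ ω, 0 < q ω → B ω) →
    ∀ i ≤ M, ∀ j ≤ M, ∀ (E : ℕ → ℕ) (u : ℕ), (∀ l < n - 1, sh (l + 1) ≤ g i j l) →
    (∀ l < n - 1, ∀ k < l, e i j + nlp (g i j) k l ≤ E l) →
    (∀ l < n - 1, g i j l + u + E l + s₂ ≤ J) → ∀ {W : Type} (y : F.Ω → W),
    Det q y (fun ω => (D.zL i j (slam F (w₀ + j * z) ω), F.T ω)) → ∀ ε : ℝ,
    (∑ l ∈ range (n - 1), ((J : ℝ) - (g i j l - sh (l + 1) : ℕ))) * Real.log 2 - ε ≤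
      CH q (fun ω (l : Fin (n - 1)) => ⌊(2 : ℝ) ^ J * F.x ω (c l)⌋) y →
    ((n - 1 : ℕ) : ℝ) * (u * Real.log 2) - (ε + ((n - 1 : ℕ) : ℝ) * Real.log (5 + 2 * L)) ≤
      CH q (fun ω (l : Fin (n - 1)) => ⌊(2 : ℝ) ^ (g i j (l + 1 - 1) - sh (l + 1) + u) *
        (cx F (fun i => c (i - 1)) ω (l + 1) - eval (cx F (fun i => c (i - 1)) ω)
          (D.PS i j (D.zS i j (ptr F J ω)) (l + 1)))⌋) y := by
  obtain ⟨L, s₂, hL, hnear⟩ := near_gx n (n - 1) K K' s₁ sh (Nat.sub_le _ _) hK'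
  refine ⟨L, s₂, hL, ?_⟩
  intro m J F D c M a₀ w₀ z e g B h hc haM q hq hB i hi j hj E u hsh hE hsiz W y hy ε hY
  have hai : a₀ + i * z ≤ J := by
    have : i * z ≤ M * z := Nat.mul_le_mul_right _ hi
    omega
  have hch := h.chn i hi j hj
  have hO := h.out i hi j hj
  have key := Ful2.full_core hq (n := n - 1) (J := J) (u := u)
    (fun ω l => cx F (fun i => c (i - 1)) ω (l + 1))
    (fun ω l => eval (cx F (fun i => c (i - 1)) ω) (D.PS i j (D.zS i j (ptr F J ω)) (l + 1)))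
    (fun l => g i j l - sh (l + 1)) y (L := L) (ε := ε) (by linarith)
    (fun l hl => by
      have h1 := hsiz l hl
      show g i j l - sh (l + 1) + u ≤ J
      omega)
    (fun ω ω' hω hω' e l hl hk => by
      have e2 := hy ω ω' hω hω' e
      simp only [Prod.mk.injEq] at e2
      have et : F.t ω = F.t ω' := by
        unfold Fam.t
        rw [e2.2]
      have ez : D.zS i j (ptr F J ω) = D.zS i j (ptr F J ω') := by
        rw [hO.cls ω (hB ω hω), hO.cls ω' (hB ω' hω'), e2.1, tx_eq, tx_eq, et]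
      have h1 := hnear m J F c (a₀ + i * z) (g i j) E u (D.G i j (ptr F J ω))
        (D.PS i j (D.zS i j (ptr F J ω))) ω hai hc (fun k _ => hch.degG _ k)
        (fun k => hch.depG _ k) (fun k hk b hb l hl => by
          refine (hch.lip ω (hB ω hω) k (by omega) b hb l hl).trans ?_
          exact pow_le_pow_right₀ (by norm_num) (hE k hk l hl))
        (fun k _ _ => hO.Stri _ k) (fun k _ _ => hO.Sdeg _ k)
        (by rw [hO.Szero, hO.Sfst, tx_eq]) (hO.nrS ω (hB ω hω))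
        (fun k h1 h2 => hO.pos ω (hB ω hω) k h1 (by omega)) hsh hsiz
        (cx F (fun i => c (i - 1)) ω') (by
          show (if 0 = 0 then F.t ω' else _) = _
          rw [if_pos rfl, et]) (l + 1) (by omega) (by omega) (fun k k1 k2 => by
          have h2 := hk (k - 1) (by omega)
          rw [Nat.sub_add_cancel k1] at h2
          rw [abs_sub_comm]
          exact h2)
      rw [abs_sub_comm]
      show |eval (cx F (fun i => c (i - 1)) ω') (D.PS i j (D.zS i j (ptr F J ω')) (l + 1)) -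
        eval (cx F (fun i => c (i - 1)) ω) (D.PS i j (D.zS i j (ptr F J ω)) (l + 1))| ≤ _
      rw [← ez]
      exact h1)
    (by
      refine hY.trans (le_of_eq ?_)
      congr 1)
  exact key

end CLO

end Pool.STAT
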