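import Pool.Agent.H19.STAT.Sys2
import Pool.Agent.H18.PB.Defs

/-!
# Cells from families

`CDat2 F n`: values at `(i, j)` which are functions of the line in the window of the index `j`;
labels at the point. `CDat2.nd2` is the two-parameter system. The context at `(i, j)` consists of the
values at `(i', j')` with `j' ≤ j` and `i' - j' ≤ i - j`, and of the time to `w₀ + j z` digits.
-/

set_option autoImplicit false

namespace Pool.STAT

open Finset MvPolynomial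
open Pool.Agent.H49.Ent Pool.Agent.H32.Dense Pool.STK Pool.KS3 Pool.KA Pool.KSAT Pool.PB
open Pool.BFL (Pl CB Pb P2 MC alt)

variable {m J n : ℕ}

/-- Points: the position to `J` digits, the time, the side information. -/
abbrev Pt2 (F : Fam m J) : Type := (Fin m → ℤ) × (ℕ × F.ζ)

/-- Lines with a window. -/
abbrev Ln2 (F : Fam m J) : Type := ((Fin m → ℝ) × (Fin m → ℝ)) × F.ζ × ℕ

/-- **Labels of all pairs of a radius and of a window.** -/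
structure CDat2 (F : Fam m J) (n : ℕ) : Type 1 where
  /-- the values -/
  V : ℕ → ℕ → Type
  /-- the labels at the point -/
  S : Type
  /-- the value on a line, in the window of the index `j` -/
  li : (i j : ℕ) → Ln2 F → V i j
  /-- the polynomials of the values -/
  P : (i j : ℕ) → V i j → ℕ → PN
  /-- the label at a point -/
  s : ℕ → ℕ → Pt2 F → S
  /-- the polynomials of the labels at a point -/
  G : ℕ → ℕ → S → ℕ → PN

namespace CDat2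

variable {F : Fam m J}


/-- The context at `(i, j)`: the values at `(i', j')`, `j' ≤ j`, `i' - j' ≤ i - j`, and the time to
`w₀ + j z` digits. -/
noncomputable def lab2 (C : CDat2 F n) (w₀ z i j : ℕ) (ω : F.Ω) :
    ((i' j' : ℕ) → Option (C.V i' j')) × ℕ :=
  (fun i' j' => if j' ≤ j ∧ i' + j ≤ i + j' then some (C.li i' j' (slam F (w₀ + j' * z) ω))
      else none,
    F.T1 (w₀ + j * z) ω)

/-- The labels, line side. -/
noncomputable def Ph2 (C : CDat2 F n) (w₀ z i j : ℕ) (ω : F.Ω) (l : ℕ) : PN :=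
  if l = 0 then MvPolynomial.C ((F.T1 (w₀ + j * z) ω : ℝ) / 2 ^ (w₀ + j * z))
  else C.P i j (C.li i j (slam F (w₀ + j * z) ω)) l

/-- The labels at the point. -/
noncomputable def Ps2 (C : CDat2 F n) (i j : ℕ) (ω : F.Ω) (l : ℕ) : PN :=
  C.G i j (C.s i j (ptr F J ω)) l

/-- The precisions: the time has the precision of the window. -/
def g2 (w₀ z : ℕ) (g : ℕ → ℕ → ℕ → ℕ) (i j l : ℕ) : ℕ := if l = 0 then w₀ + j * z else g i j l

/-- The natural box at `(i, j)`. -/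
def Nb2 (C : CDat2 F n) (X : F.Ω → ℕ → ℝ) (g : ℕ → ℕ → ℕ → ℕ) (i j ρ k : ℕ) (ω : F.Ω)
    (b : ℕ → ℝ) : Prop :=
  |b 0 - X ω 0| ≤ 1 / 2 ^ ρ ∧
    ∀ l, 1 ≤ l → l < k → |b l - eval b (C.Ps2 i j ω l)| ≤ 1 / 2 ^ g i j l

/-- **The conditions**, for abstract positions `X` and paths `pa`. -/
structure Cnd2 (C : CDat2 F n) (X : F.Ω → ℕ → ℝ) (pa : Ln2 F → ℕ → Polynomial ℝ)
    (K a₀ w₀ z M : ℕ) (g : ℕ → ℕ → ℕ → ℕ) (A : F.Ω → Prop) : Prop where
  X_zero : ∀ ω, X ω 0 = F.t ω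
  X_pt : ∀ ω ω', A ω → A ω' → ptr F J ω = ptr F J ω' → ∀ l ≤ n, |X ω l - X ω' l| ≤ 1 / 2 ^ J
  str : ∀ ω, A ω → ∀ l ≤ n, X ω l = (pa (slam F w₀ ω) l).eval (X ω 0)
  pa_deg : ∀ x l, (pa x l).natDegree ≤ K
  Pdeg : ∀ i ≤ M, ∀ j ≤ M, ∀ x l, 1 ≤ l → l ≤ n → (C.P i j x l).totalDegree ≤ K
  Ptri : ∀ i ≤ M, ∀ j ≤ M, ∀ x l, 1 ≤ l → l ≤ n → (C.P i j x l).vars ⊆ range l
  Gdeg : ∀ i ≤ M, ∀ j ≤ M, ∀ x l, 1 ≤ l → l ≤ n → (C.G i j x l).totalDegree ≤ K
  Gtri : ∀ i ≤ M, ∀ j ≤ M, ∀ x l, 1 ≤ l → l ≤ n → (C.G i j x l).vars ⊆ range l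
  s_c : ∀ i ≤ M, ∀ j ≤ M, ∀ ω ω', A ω → A ω' → C.lab2 w₀ z i j ω = C.lab2 w₀ z i j ω' →
    F.T ω = F.T ω' → C.s i j (ptr F J ω) = C.s i j (ptr F J ω')
  hgt : ∀ i ≤ M, ∀ j ≤ M, ∀ ω, A ω → ∀ l, 1 ≤ l → l ≤ n →
    |X ω l - eval (X ω) (C.Ph2 w₀ z i j ω l)| ≤ 1 / 2 ^ g i j l
  pos : ∀ i ≤ M, ∀ j ≤ M, ∀ ω, A ω → ∀ l, 1 ≤ l → l ≤ n →
    |X ω l - eval (X ω) (C.Ps2 i j ω l)| ≤ 1 / 2 ^ g i j l
  agr : ∀ i ≤ M, ∀ j ≤ M, ∀ ω, A ω → ∀ l, 1 ≤ l → l ≤ n → ∀ b : ℕ → ℝ,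
    C.Nb2 X g i j (a₀ + i * z) l ω b →
    |eval b (C.Ps2 i j ω l) - eval b (C.Ph2 w₀ z i j ω l)| ≤ 1 / 2 ^ g i j l

theorem Cnd2.sub {C : CDat2 F n} {X : F.Ω → ℕ → ℝ} {pa : Ln2 F → ℕ → Polynomial ℝ}
    {K a₀ w₀ z M : ℕ} {g : ℕ → ℕ → ℕ → ℕ} {A B : F.Ω → Prop}
    (h : C.Cnd2 X pa K a₀ w₀ z M g A) (hB : ∀ ω, B ω → A ω) :
    C.Cnd2 X pa K a₀ w₀ z M g B where
  X_zero := h.X_zero
  X_pt := fun ω ω' a b => h.X_pt ω ω' (hB ω a) (hB ω' b)
  str := fun ω a => h.str ω (hB ω a)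
  pa_deg := h.pa_deg
  Pdeg := h.Pdeg
  Ptri := h.Ptri
  Gdeg := h.Gdeg
  Gtri := h.Gtri
  s_c := fun i hi j hj ω ω' a b => h.s_c i hi j hj ω ω' (hB ω a) (hB ω' b)
  hgt := fun i hi j hj ω a => h.hgt i hi j hj ω (hB ω a)
  pos := fun i hi j hj ω a => h.pos i hi j hj ω (hB ω a)
  agr := fun i hi j hj ω a => h.agr i hi j hj ω (hB ω a)

/-- The slopes and the precisions. -/
structure Num2 (n J a₀ w₀ z M : ℕ) (lam gam : ℕ → ℝ) (g : ℕ → ℕ → ℕ → ℕ) (C₁ : ℝ) : Prop where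
  thin : w₀ + (M + 1) * z ≤ a₀
  top : a₀ + (M + 1) * z ≤ J
  lam_ge : ∀ l, 1 ≤ lam l
  gam_ge : ∀ l, 0 ≤ gam l
  hom : ∀ i ≤ M, ∀ j ≤ M, ∀ l, 1 ≤ l → l ≤ n →
    |(g i j l : ℝ) - g 0 0 l - (lam l * i + gam l * j) * z| ≤ C₁ * z
  g_ge : ∀ i ≤ M, ∀ j ≤ M, ∀ l, 1 ≤ l → l ≤ n → (a₀ : ℝ) + i * z ≤ g i j l + C₁ * z
  g_le : ∀ i ≤ M, ∀ j ≤ M, ∀ l, 1 ≤ l → l ≤ n → g i j l + M * z ≤ J

open Classical in
/-- **The cell of a family**, for abstract positions and paths. -/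
noncomputable def nd2 (C : CDat2 F n) (X : F.Ω → ℕ → ℝ) (pa : Ln2 F → ℕ → Polynomial ℝ)
    (w₀ z M : ℕ) (g : ℕ → ℕ → ℕ → ℕ) : NDat2 where
  Ω := F.Ω
  Λ := Ln2 F
  Γ := ((i' j' : ℕ) → Option (C.V i' j')) × ℕ
  Ξ := Pt2 F
  S := C.S
  fin := F.fin
  ln := slam F w₀
  pt := ptr F J
  T := F.T
  X := X
  pa := pa
  c := C.lab2 w₀ z
  P i j x l := if l = 0 then MvPolynomial.C ((x.2 : ℝ) / 2 ^ (w₀ + j * z)) else
    if l ≤ n ∧ i ≤ M ∧ j ≤ M then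
      match x.1 i j with
      | some y => C.P i j y l
      | none => 0
    else 0
  s i j ω := C.s i j (ptr F J ω)
  G i j x l := if 1 ≤ l ∧ l ≤ n ∧ i ≤ M ∧ j ≤ M then C.G i j x l else 0
  g := g2 w₀ z g

section

variable (C : CDat2 F n) (X : F.Ω → ℕ → ℝ) (pa : Ln2 F → ℕ → Polynomial ℝ) (w₀ z M : ℕ)
  (g : ℕ → ℕ → ℕ → ℕ)

/-- The labels, line side. -/
theorem nd2_Φ {i j l : ℕ} (hi : i ≤ M) (hj : j ≤ M) (hl : l ≤ n) (ω : F.Ω) :
    (C.nd2 X pa w₀ z M g).Φ i j ω l = C.Ph2 w₀ z i j ω l := by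
  change (if l = 0 then MvPolynomial.C (((C.lab2 w₀ z i j ω).2 : ℝ) / 2 ^ (w₀ + j * z)) else
    if l ≤ n ∧ i ≤ M ∧ j ≤ M then
      match (C.lab2 w₀ z i j ω).1 i j with
      | some y => C.P i j y l
      | none => 0
    else 0) = _
  unfold Ph2
  by_cases h0 : l = 0
  · rw [if_pos h0, if_pos h0]
    rfl
  · rw [if_neg h0, if_neg h0, if_pos ⟨hl, hi, hj⟩]
    have h1 : (C.lab2 w₀ z i j ω).1 i j = some (C.li i j (slam F (w₀ + j * z) ω)) :=
      if_pos ⟨le_rfl, le_rfl⟩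
    rw [h1]

/-- The labels at the point. -/
theorem nd2_Ψ {i j l : ℕ} (hi : i ≤ M) (hj : j ≤ M) (h1 : 1 ≤ l) (hl : l ≤ n) (ω : F.Ω) :
    (C.nd2 X pa w₀ z M g).Ψ i j ω l = C.Ps2 i j ω l := by
  change (if 1 ≤ l ∧ l ≤ n ∧ i ≤ M ∧ j ≤ M then C.G i j (C.s i j (ptr F J ω)) l else 0) = _
  rw [if_pos ⟨h1, hl, hi, hj⟩]
  rfl

theorem nd2_g {i j l : ℕ} (h1 : 1 ≤ l) : (C.nd2 X pa w₀ z M g).g i j l = g i j l :=
  if_neg (by omega)

theorem nd2_g0 {i j : ℕ} : (C.nd2 X pa w₀ z M g).g i j 0 = w₀ + j * z := by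
  change g2 w₀ z g i j 0 = _
  exact if_pos rfl

theorem nd2_NB {i j ρ k : ℕ} (hi : i ≤ M) (hj : j ≤ M) (hk : k ≤ n + 1) (ω : F.Ω) (b : ℕ → ℝ) :
    (C.nd2 X pa w₀ z M g).NB i j ρ k ω b ↔ C.Nb2 X g i j ρ k ω b := by
  constructor
  · rintro ⟨h1, h2⟩
    refine ⟨h1, fun l l1 l2 => ?_⟩
    have h3 := h2 l l1 l2
    rw [nd2_Ψ C X pa w₀ z M g hi hj l1 (by omega), nd2_g C X pa w₀ z M g l1] at h3
    exact h3
  · rintro ⟨h1, h2⟩
    refine ⟨h1, fun l l1 l2 => ?_⟩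
    rw [nd2_Ψ C X pa w₀ z M g hi hj l1 (by omega), nd2_g C X pa w₀ z M g l1]
    exact h2 l l1 l2

theorem nd2_vd {i j r : ℕ} (hi : i ≤ M) (hj : j ≤ M) (ω : F.Ω) (l : Fin (n - 1)) :
    (C.nd2 X pa w₀ z M g).vd n i j r ω l = ⌊(2 : ℝ) ^ (g i j (l + 1) + r) *
      (X ω (l + 1) - eval (X ω) (C.Ps2 i j ω (l + 1)))⌋ := by
  have hl : (l : ℕ) + 1 ≤ n := by have := l.2; omega
  unfold NDat2.vd NDat2.sh
  rw [nd2_Ψ C X pa w₀ z M g hi hj (by omega) hl, nd2_g C X pa w₀ z M g (by omega)]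
  rfl

end

/-! ### The contexts -/

theorem T1_slam (F : Fam m J) {w w' : ℕ} (h : w ≤ w') (hw : w' ≤ J) {ω ω' : F.Ω}
    (e : F.T1 w' ω = F.T1 w' ω') : F.T1 w ω = F.T1 w ω' := by
  have h1 : ∀ ω, F.T1 w ω = F.T1 w' ω / 2 ^ (w' - w) := by
    intro ω
    unfold Fam.T1
    rw [Nat.div_div_eq_div_mul, ← pow_add]
    congr 2
    omega
  rw [h1 ω, h1 ω', e]

theorem slam_slam (F : Fam m J) {w w' : ℕ} (h : w ≤ w') (hw : w' ≤ J) {ω ω' : F.Ω}
    (e : slam F w' ω = slam F w' ω') : slam F w ω = slam F w ω' := by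
  rw [slam_coarse F h hw ω, slam_coarse F h hw ω', e]

/-- The context is a function of the line in the window of the index `j`. -/
theorem lab2_slam (C : CDat2 F n) {w₀ z i j : ℕ} (hJ : w₀ + j * z ≤ J)
    {ω ω' : F.Ω} (h : slam F (w₀ + j * z) ω = slam F (w₀ + j * z) ω') :
    C.lab2 w₀ z i j ω = C.lab2 w₀ z i j ω' := by
  have h3 : F.T1 (w₀ + j * z) ω = F.T1 (w₀ + j * z) ω' := congrArg (·.2.2) h
  unfold lab2
  refine Prod.ext ?_ h3
  funext i' j'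
  by_cases hk : j' ≤ j ∧ i' + j ≤ i + j'
  · simp only [if_pos hk]
    have h4 : w₀ + j' * z ≤ w₀ + j * z := Nat.add_le_add_left (Nat.mul_le_mul_right z hk.1) w₀
    rw [slam_slam F h4 hJ h]
  · simp only [if_neg hk]

/-- The value at `(i', j')` is a function of the context. -/
theorem lab2_val (C : CDat2 F n) {w₀ z i j i' j' : ℕ} (hj : j' ≤ j)
    (hi : i' + j ≤ i + j') {ω ω' : F.Ω}
    (h : C.lab2 w₀ z i j ω = C.lab2 w₀ z i j ω') :
    C.li i' j' (slam F (w₀ + j' * z) ω) = C.li i' j' (slam F (w₀ + j' * z) ω') := by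
  have h1 := congrFun (congrFun (congrArg (·.1) h) i') j'
  simp only [lab2, if_pos (And.intro hj hi)] at h1
  exact Option.some.inj h1

/-- The context at a smaller index is a function of the context. -/
theorem lab2_lab2 (C : CDat2 F n) {w₀ z i j i' j' : ℕ} (hj : j' ≤ j)
    (hi : i' + j ≤ i + j') (hJ : w₀ + j * z ≤ J) {ω ω' : F.Ω}
    (h : C.lab2 w₀ z i j ω = C.lab2 w₀ z i j ω') :
    C.lab2 w₀ z i' j' ω = C.lab2 w₀ z i' j' ω' := by
  have h3 : F.T1 (w₀ + j * z) ω = F.T1 (w₀ + j * z) ω' := congrArg (·.2) h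
  unfold lab2
  refine Prod.ext ?_ (T1_slam F (Nat.add_le_add_left (Nat.mul_le_mul_right z hj) w₀) hJ h3)
  funext a b
  by_cases hab : b ≤ j' ∧ a + j' ≤ i' + b
  · simp only [if_pos hab]
    rw [lab2_val C (hab.1.trans hj) (by omega) h]
  · simp only [if_neg hab]

/-! ### Few bits -/

/-- The values on a finite set of indices. -/
noncomputable def vs (C : CDat2 F n) (w₀ z : ℕ) (s : Finset (ℕ × ℕ)) (ω : F.Ω) (i j : ℕ) :
    Option (C.V i j) :=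
  if (i, j) ∈ s then some (C.li i j (slam F (w₀ + j * z) ω)) else none

theorem vs_few (C : CDat2 F n) (w₀ z : ℕ) {q : F.Ω → ℝ} (hq : IsLaw q) {U : Type} (W : F.Ω → U)
    (s : Finset (ℕ × ℕ)) : CH q (C.vs w₀ z s) W ≤
      ∑ p ∈ s, CH q (fun ω => C.li p.1 p.2 (slam F (w₀ + p.2 * z) ω)) W := by
  classical
  induction s using Finset.induction_on with
  | empty =>
    rw [Finset.sum_empty]
    refine le_of_eq (CH_eq_zero hq.nonneg fun ω ω' _ _ _ => ?_)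
    funext i j
    simp only [vs, Finset.notMem_empty, if_false]
  | insert p s hp ih =>
    rw [Finset.sum_insert hp]
    have h1 := CH_le_add hq.nonneg (C.vs w₀ z (insert p s)) (C.vs w₀ z s) W
    have h2 : CH q (C.vs w₀ z (insert p s)) (fun ω => (C.vs w₀ z s ω, W ω)) ≤
        CH q (fun ω => C.li p.1 p.2 (slam F (w₀ + p.2 * z) ω))
          (fun ω => (C.vs w₀ z s ω, W ω)) := by
      refine CH_mono_left hq.nonneg fun ω ω' _ _ e' => ?_
      simp only [Prod.mk.injEq] at e'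
      obtain ⟨e, e', _⟩ := e'
      funext i j
      by_cases h3 : (i, j) = p
      · subst h3
        simp only [vs, Finset.mem_insert_self, if_true]
        exact congrArg some e
      · have h4 := congrFun (congrFun e' i) j
        by_cases h5 : (i, j) ∈ s
        · have h6 : (i, j) ∈ insert p s := Finset.mem_insert_of_mem h5
          simp only [vs, h5, if_true] at h4
          simp only [vs, h6, if_true]
          exact h4
        · have h6 : (i, j) ∉ insert p s := by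
            rw [Finset.mem_insert]
            rintro (h | h)
            · exact h3 h
            · exact h5 h
          simp only [vs, h6, if_false]
    have h3 : CH q (fun ω => C.li p.1 p.2 (slam F (w₀ + p.2 * z) ω))
        (fun ω => (C.vs w₀ z s ω, W ω)) ≤
        CH q (fun ω => C.li p.1 p.2 (slam F (w₀ + p.2 * z) ω)) W :=
      CH_mono_cond hq.nonneg fun ω ω' _ _ e => (Prod.ext_iff.mp e).2
    linarith

/-- The value at `(i, j)` of the sample. -/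
def val (C : CDat2 F n) (w₀ z i j : ℕ) (ω : F.Ω) : C.V i j := C.li i j (slam F (w₀ + j * z) ω)

/-- **Few bits of the context, from the values of the cone.** -/
theorem lab2_le (C : CDat2 F n) {w₀ z M : ℕ} {q : F.Ω → ℝ} (hq : IsLaw q) {U : Type}
    (W : F.Ω → U) {i j : ℕ} (hi : i ≤ M) (hj : j ≤ M) (hT : Det q W (F.T1 (w₀ + j * z)))
    {ε : ℝ} (hε : ∀ i' ≤ M, ∀ j' ≤ j, i' + j ≤ i + j' → CH q (C.val w₀ z i' j') W ≤ ε) :
    CH q (C.lab2 w₀ z i j) W ≤ (M + 1) ^ 2 * ε := by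
  classical
  have h0 : 0 ≤ ε := (CH_nonneg hq.nonneg _ _).trans (hε i hi j le_rfl le_rfl)
  have h1 := C.vs_few w₀ z hq W
    ((range (M + 1) ×ˢ range (M + 1)).filter fun p => p.2 ≤ j ∧ p.1 + j ≤ i + p.2)
  have h2 : ∑ p ∈ (range (M + 1) ×ˢ range (M + 1)).filter
        (fun p : ℕ × ℕ => p.2 ≤ j ∧ p.1 + j ≤ i + p.2),
        CH q (fun ω => C.li p.1 p.2 (slam F (w₀ + p.2 * z) ω)) W ≤
      ∑ p ∈ (range (M + 1) ×ˢ range (M + 1)).filter
        (fun p : ℕ × ℕ => p.2 ≤ j ∧ p.1 + j ≤ i + p.2), ε := by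
    refine Finset.sum_le_sum fun p hp => ?_
    rw [Finset.mem_filter, Finset.mem_product, mem_range, mem_range] at hp
    exact hε p.1 (by omega) p.2 hp.2.1 hp.2.2
  have h3 : ∑ p ∈ (range (M + 1) ×ˢ range (M + 1)).filter
        (fun p : ℕ × ℕ => p.2 ≤ j ∧ p.1 + j ≤ i + p.2), ε ≤ (M + 1) ^ 2 * ε := by
    rw [Finset.sum_const, nsmul_eq_mul]
    refine mul_le_mul_of_nonneg_right ?_ h0
    have h4 := Finset.card_filter_le (range (M + 1) ×ˢ range (M + 1))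
      (fun p : ℕ × ℕ => p.2 ≤ j ∧ p.1 + j ≤ i + p.2)
    rw [Finset.card_product, Finset.card_range] at h4
    calc (((range (M + 1) ×ˢ range (M + 1)).filter
          (fun p : ℕ × ℕ => p.2 ≤ j ∧ p.1 + j ≤ i + p.2)).card : ℝ) ≤
          (((M + 1) * (M + 1) : ℕ) : ℝ) := by exact_mod_cast h4
      _ = (M + 1) ^ 2 := by push_cast; ring
  refine le_trans ?_ (h1.trans (h2.trans h3))
  refine CH_mono_left hq.nonneg fun ω ω' a a' e => ?_
  obtain ⟨e1, e2⟩ := Prod.ext_iff.mp e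
  change C.vs w₀ z _ ω = C.vs w₀ z _ ω' at e1
  change W ω = W ω' at e2
  unfold lab2
  refine Prod.ext ?_ (hT ω ω' a a' e2)
  funext i' j'
  by_cases hk : j' ≤ j ∧ i' + j ≤ i + j'
  · have h5 := congrFun (congrFun e1 i') j'
    have h6 : (i', j') ∈ (range (M + 1) ×ˢ range (M + 1)).filter
        (fun p : ℕ × ℕ => p.2 ≤ j ∧ p.1 + j ≤ i + p.2) := by
      rw [Finset.mem_filter, Finset.mem_product, mem_range, mem_range]
      refine ⟨⟨?_, ?_⟩, hk⟩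
      · change i' < M + 1
        omega
      · change j' < M + 1
        omega
    simp only [vs, h6, if_true] at h5
    simp only [if_pos hk]
    exact h5
  · simp only [if_neg hk]

end CDat2

end Pool.STAT
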