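import Pool.Agent.H63.STAT.Clo
import Pool.Agent.H68.STAT.Fam2

/-!
# The field `net` of a cell

The labels are the rounded natural coefficients of the polynomials. If two samples with the same
value of `y` have near polynomials on the natural boxes, then the labels have few bits given `y`.
-/

set_option autoImplicit false

namespace Pool.STAT.Net

open Finset MvPolynomial
open Pool.Agent.H49.Ent Pool.Agent.H32.Dense Pool.STK Pool.KS3 Pool.KA Pool.KSAT Pool.PB
open Pool.STAT.CLO (LV ex)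

section gen

variable {Ω Y ι : Type} [Fintype Ω] {q : Ω → ℝ}

/-- Vectors of integers with a finite support. -/
theorem ch_fin (hq : IsLaw q) (E : Finset ι) (X : Ω → ι → ℤ) (W : Ω → Y) {L : ℝ}
    (hE : ∀ ω, 0 < q ω → ∀ k ∉ E, X ω k = 0)
    (h : ∀ ω ω', 0 < q ω → 0 < q ω' → W ω = W ω' → ∀ k, |((X ω k - X ω' k : ℤ) : ℝ)| ≤ L) :
    CH q X W ≤ E.card * Real.log (2 * L + 1) := by
  classical
  obtain ⟨e⟩ : Nonempty (↥E ≃ Fin E.card) := ⟨E.equivFin⟩
  have h1 := CH_le_vec hq.nonneg hq.sum_one (fun ω (i : Fin E.card) => X ω (e.symm i)) W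
    (fun _ => L) (fun ω ω' a b c k => h ω ω' a b c _)
  rw [Ex_const hq.sum_one] at h1
  refine le_trans (CH_mono_left hq.nonneg fun ω ω' a b c => ?_) h1
  simp only [Prod.mk.injEq] at c
  funext k
  by_cases hk : k ∈ E
  · have h2 := congrFun c.1 (e ⟨k, hk⟩)
    simp only [Equiv.symm_apply_apply] at h2
    exact h2
  · rw [hE ω a k hk, hE ω' b k hk]

/-- **The label has few bits.** `z` the label, `θ` its first component. -/
theorem net_core (hq : IsLaw q) {n c : ℕ} {L S : ℝ} (z : Ω → LV) (y : Ω → Y)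
    (h0 : Det q y (fun ω => (z ω).1))
    (supp : ∀ ω, 0 < q ω → ∀ j k, (k ∉ ex j c ∨ j = 0 ∨ n < j) → (z ω).2 j k = 0)
    (sep : ∀ ω ω', 0 < q ω → 0 < q ω' → y ω = y ω' → ∀ j, 1 ≤ j → j ≤ n →
      (∀ k < j, (z ω).2 k = (z ω').2 k) → ∀ k, |(((z ω).2 j k - (z ω').2 j k : ℤ) : ℝ)| ≤ L * S) :
    CH q z y ≤ ∑ j ∈ range n, ((ex (j + 1) c).card : ℝ) * Real.log (2 * (L * S) + 1) := by
  classical
  have H : ∀ m ≤ n, CH q (fun ω j => if j ≤ m then (z ω).2 j else 0) y ≤
      ∑ j ∈ range m, ((ex (j + 1) c).card : ℝ) * Real.log (2 * (L * S) + 1) := by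
    intro m
    induction m with
    | zero =>
      intro _
      rw [Finset.sum_range_zero]
      refine le_of_eq (CH_eq_zero hq.nonneg fun ω ω' a b _ => ?_)
      funext j
      by_cases hj : j ≤ 0
      · simp only [hj, if_true]
        funext k
        rw [supp ω a j k (Or.inr (Or.inl (by omega))), supp ω' b j k (Or.inr (Or.inl (by omega)))]
      · simp only [hj, if_false]
    | succ m ih =>
      intro hm
      have h1 := ih (by omega)
      rw [Finset.sum_range_succ]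
      have h2 := CH_chain hq.nonneg (fun ω => (z ω).2 (m + 1))
        (fun ω j => if j ≤ m then (z ω).2 j else 0) y
      have h3 : CH q (fun ω => (z ω).2 (m + 1))
          (fun ω => ((fun j => if j ≤ m then (z ω).2 j else 0), y ω)) ≤
          ((ex (m + 1) c).card : ℝ) * Real.log (2 * (L * S) + 1) := by
        refine ch_fin hq (ex (m + 1) c) _ _ (fun ω a k hk => supp ω a _ _ (Or.inl hk))
          fun ω ω' a b e k => ?_
        simp only [Prod.mk.injEq] at e
        refine sep ω ω' a b e.2 (m + 1) (by omega) hm (fun j hj => ?_) k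
        have h4 := congrFun e.1 j
        have h5 : j ≤ m := by omega
        simp only [h5, if_true] at h4
        exact h4
      have h4 : CH q (fun ω j => if j ≤ m + 1 then (z ω).2 j else 0) y ≤
          CH q (fun ω => ((z ω).2 (m + 1), fun j => if j ≤ m then (z ω).2 j else 0)) y := by
        refine CH_mono_left hq.nonneg fun ω ω' _ _ e => ?_
        simp only [Prod.mk.injEq] at e
        funext j
        by_cases hj : j ≤ m
        · have h5 := congrFun e.1.2 j
          simp only [hj, if_true] at h5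
          have h6 : j ≤ m + 1 := by omega
          simp only [h6, if_true]
          exact h5
        · by_cases hj2 : j = m + 1
          · subst hj2
            simp only [le_refl, if_true]
            exact e.1.1
          · have h6 : ¬ j ≤ m + 1 := by omega
            simp only [h6, if_false]
      linarith
  refine le_trans (CH_mono_left hq.nonneg fun ω ω' a b e => ?_) (H n le_rfl)
  simp only [Prod.mk.injEq] at e
  refine Prod.ext (h0 ω ω' a b e.2) ?_
  funext j
  by_cases hj : j ≤ n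
  · have h5 := congrFun e.1 j
    simp only [hj, if_true] at h5
    exact h5
  · funext k
    rw [supp ω a j k (Or.inr (Or.inr (by omega))), supp ω' b j k (Or.inr (Or.inr (by omega)))]

/-- The count. -/
theorem net_num {n c : ℕ} {L : ℝ} (hL : 0 ≤ L) : ∃ C₁ : ℝ, 0 ≤ C₁ ∧ ∀ (C : ℝ) (z : ℕ), 0 ≤ C →
    1 ≤ z → ∑ j ∈ range n, ((ex (j + 1) c).card : ℝ) *
      Real.log (2 * (L * Real.exp (C * z)) + 1) ≤ C₁ * (C + 1) * z := by
  obtain ⟨N, hN⟩ : ∃ N : ℝ, N = ∑ j ∈ range n, ((ex (j + 1) c).card : ℝ) := ⟨_, rfl⟩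
  have hN0 : 0 ≤ N := by
    rw [hN]
    positivity
  have hl : 0 ≤ Real.log (2 * L + 1) := Real.log_nonneg (by linarith)
  refine ⟨N * (Real.log (2 * L + 1) + 1), by positivity, fun C z hC hz => ?_⟩
  rw [← Finset.sum_mul, ← hN]
  have hz' : (1 : ℝ) ≤ z := by exact_mod_cast hz
  have hCz : 0 ≤ C * (z : ℝ) := by positivity
  have h1 : (1 : ℝ) ≤ Real.exp (C * z) := Real.one_le_exp hCz
  have h2 : Real.log (2 * (L * Real.exp (C * z)) + 1) ≤ Real.log (2 * L + 1) + C * z := by
    calc Real.log (2 * (L * Real.exp (C * z)) + 1) ≤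
          Real.log ((2 * L + 1) * Real.exp (C * z)) := by
          refine Real.log_le_log (by positivity) ?_
          nlinarith
      _ = Real.log (2 * L + 1) + C * z := by
          rw [Real.log_mul (by positivity) (by positivity), Real.log_exp]
  have h3 : Real.log (2 * L + 1) + C * z ≤ (Real.log (2 * L + 1) + 1) * (C + 1) * z := by
    nlinarith [mul_nonneg hl (mul_nonneg hC (by linarith : (0 : ℝ) ≤ z)),
      mul_nonneg hl (by linarith : (0 : ℝ) ≤ z - 1)]
  calc N * Real.log (2 * (L * Real.exp (C * z)) + 1) ≤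
        N * ((Real.log (2 * L + 1) + 1) * (C + 1) * z) :=
        mul_le_mul_of_nonneg_left (h2.trans h3) hN0
    _ = N * (Real.log (2 * L + 1) + 1) * (C + 1) * z := by ring

end gen

/-- **The field `net` of the cell of a family.** `zz` the label at the point, `P` its polynomials,
with the separation `sep` and the support `supp` (fields of `CLO.Lev`), `g'` the precisions at
`(i, j)` with the radius `a` of the time. -/
theorem net_fam (n c : ℕ) {L : ℝ} (hL : 0 ≤ L) : ∃ C₁ : ℝ, 0 ≤ C₁ ∧ ∀ {m J : ℕ} {F : Fam m J}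
    (C : CDat2 F n) (X : F.Ω → ℕ → ℝ) (q : F.Ω → ℝ) (i j a z : ℕ) (g : ℕ → ℕ → ℕ → ℕ)
    (g' : ℕ → ℕ) (zz : Pt2 F → LV) (P : LV → ℕ → PN), IsLaw q → 1 ≤ z → g' 0 = a →
    (∀ l, 1 ≤ l → l ≤ n → g' l = g i j l) →
    (∀ v, P v 0 = MvPolynomial.C v.1) → (∀ ω, (zz (ptr F J ω)).1 = F.t ω) →
    (∀ ω, X ω 0 = F.t ω) →
    (∀ y j k, (k ∉ ex j c ∨ j = 0 ∨ n < j) → (zz y).2 j k = 0) →
    (∀ y y', (zz y).1 = (zz y').1 → ∀ j ≤ n, (∀ k < j, (zz y).2 k = (zz y').2 k) →
      ∀ S' : ℝ, 0 ≤ S' → (∀ b : ℕ → ℝ, Bx g' (P (zz y)) j b →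
        |eval b (P (zz y) j) - eval b (P (zz y') j)| ≤ S' / 2 ^ g' j) →
      ∀ k, |(((zz y).2 j k - (zz y').2 j k : ℤ) : ℝ)| ≤ L * S') →
    (∀ y y', zz y = zz y' → C.s i j y = C.s i j y') →
    (∀ ω l, 1 ≤ l → l ≤ n → C.Ps2 i j ω l = P (zz (ptr F J ω)) l) →
    ∀ C' : ℝ, 0 ≤ C' → ∀ (Y : Type) (y : F.Ω → Y), Det q y F.T →
      (∀ ω ω', 0 < q ω → 0 < q ω' → y ω = y ω' → ∀ l, 1 ≤ l → l ≤ n → ∀ b : ℕ → ℝ,
        C.Nb2 X g i j a l ω b →
        |eval b (C.Ps2 i j ω l) - eval b (C.Ps2 i j ω' l)| ≤ Real.exp (C' * z) / 2 ^ g i j l) →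
      CH q (fun ω => C.s i j (ptr F J ω)) y ≤ C₁ * (C' + 1) * z := by
  obtain ⟨C₁, hC₁, hnum⟩ := net_num (n := n) (c := c) hL
  refine ⟨C₁, hC₁, ?_⟩
  intro m J F C X q i j a z g g' zz P hq hz hg0 hg zero fst X0 supp sep hs hP C' hC' Y y hy hnear
  refine le_trans ?_ (hnum C' z hC' hz)
  refine le_trans (CH_mono_left hq.nonneg (X' := fun ω => zz (ptr F J ω)) fun ω ω' _ _ e =>
    hs _ _ (Prod.ext_iff.mp e).1) ?_
  refine net_core hq (fun ω => zz (ptr F J ω)) y (fun ω ω' a1 a2 e => ?_)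
    (fun ω _ j k h => supp _ j k h) fun ω ω' a1 a2 e j hj1 hjn hk k => ?_
  · change (zz (ptr F J ω)).1 = (zz (ptr F J ω')).1
    have hT : F.T ω = F.T ω' := hy ω ω' a1 a2 e
    rw [fst ω, fst ω']
    unfold Fam.t
    rw [hT]
  · refine sep _ _ ?_ j hjn hk (Real.exp (C' * z)) (Real.exp_pos _).le (fun b hb => ?_) k
    · have hT : F.T ω = F.T ω' := hy ω ω' a1 a2 e
      rw [fst ω, fst ω']
      unfold Fam.t
      rw [hT]
    · rw [hg j hj1 hjn, ← hP ω j hj1 hjn, ← hP ω' j hj1 hjn]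
      refine hnear ω ω' a1 a2 e j hj1 hjn b ⟨?_, fun l l1 l2 => ?_⟩
      · have h1 := hb 0 (by omega)
        rw [zero, eval_C, fst ω, hg0] at h1
        rw [X0 ω]
        exact h1
      · have h1 := hb l l2
        rw [hg l l1 (by omega), ← hP ω l l1 (by omega)] at h1
        exact h1

end Pool.STAT.Net
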