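import Pool.Agent.H68.STAT.Fam2
import Pool.Agent.H68.STAT.Ful2

/-!
# The axioms of the cell of a family
-/

set_option autoImplicit false

namespace Pool.STAT

open Finset MvPolynomial
open Pool.Agent.H49.Ent Pool.Agent.H32.Dense Pool.STK Pool.KS3 Pool.KA Pool.KSAT Pool.PB
open Pool.BFL (Pl CB Pb P2 MC alt)

variable {m J n : ℕ}

namespace CDat2

variable {F : Fam m J}

/-- **The axioms `Ok2` of the cell of a family.** -/
theorem ok2 {C : CDat2 F n} {X : F.Ω → ℕ → ℝ} {pa : Ln2 F → ℕ → Polynomial ℝ}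
    {K a₀ w₀ z M : ℕ} {lam gam : ℕ → ℝ} {g : ℕ → ℕ → ℕ → ℕ} {κ C₁ : ℝ} {A : F.Ω → Prop}
    (hC : C.Cnd2 X pa K a₀ w₀ z M g A) (hN : Num2 n J a₀ w₀ z M lam gam g C₁)
    {q : F.Ω → ℝ} (hq : IsLaw q) (hA : ∀ ω, 0 < q ω → A ω)
    (ifew : ∀ i < M, ∀ j ≤ M, CH q (C.lab2 w₀ z (i + 1) j) (C.lab2 w₀ z i j) ≤ C₁ * z)
    (ijfew : ∀ i < M, ∀ j < M, CH q (C.lab2 w₀ z (i + 1) (j + 1)) (C.lab2 w₀ z i j) ≤ C₁ * z)
    (net : ∀ i ≤ M, ∀ j ≤ M, ∀ C' : ℝ, 0 ≤ C' → ∀ (Y : Type) (y : F.Ω → Y), Det q y F.T →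
      (∀ ω ω', 0 < q ω → 0 < q ω' → y ω = y ω' → ∀ l, 1 ≤ l → l ≤ n → ∀ b : ℕ → ℝ,
        C.Nb2 X g i j (a₀ + i * z) l ω b →
        |eval b (C.Ps2 i j ω l) - eval b (C.Ps2 i j ω' l)| ≤ Real.exp (C' * z) / 2 ^ g i j l) →
      CH q (fun ω => C.s i j (ptr F J ω)) y ≤ C₁ * (C' + 1) * z)
    (full : ∀ i ≤ M, ∀ j ≤ M, ∀ U, i + U ≤ M →
      ((n - 1 : ℕ) : ℝ) * (U * z) * Real.log 2 - κ * z ≤
      CH q (fun ω (l : Fin (n - 1)) => ⌊(2 : ℝ) ^ (g i j (l + 1) + U * z) *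
        (X ω (l + 1) - eval (X ω) (C.Ps2 i j ω (l + 1)))⌋)
        (fun ω => (C.lab2 w₀ z i j ω, F.T ω))) :
    (C.nd2 X pa w₀ z M g).Ok2 n K J a₀ w₀ z M lam gam κ C₁ q := by
  have hwj : ∀ j ≤ M, w₀ + j * z ≤ J := fun j hj => by
    have h1 := hN.top
    have h2 := hN.thin
    have h3 : j * z ≤ (M + 1) * z := Nat.mul_le_mul_right z (by omega)
    omega
  have hΦ : ∀ i ≤ M, ∀ j ≤ M, ∀ l ≤ n, ∀ ω,
      (C.nd2 X pa w₀ z M g).Φ i j ω l = C.Ph2 w₀ z i j ω l :=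
    fun i hi j hj l hl ω => nd2_Φ C X pa w₀ z M g hi hj hl ω
  have hΨ : ∀ i ≤ M, ∀ j ≤ M, ∀ l, 1 ≤ l → l ≤ n → ∀ ω,
      (C.nd2 X pa w₀ z M g).Ψ i j ω l = C.Ps2 i j ω l :=
    fun i hi j hj l h1 hl ω => nd2_Ψ C X pa w₀ z M g hi hj h1 hl ω
  have hg : ∀ i j l, 1 ≤ l → (C.nd2 X pa w₀ z M g).g i j l = g i j l :=
    fun i j l h1 => nd2_g C X pa w₀ z M g h1
  refine
    { isLaw := hq
      thin := hN.thin
      top := hN.top
      T_lt := F.tim
      X_zero := hC.X_zero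
      pt_T := fun ω ω' _ _ h => congrArg (fun y : Pt2 F => y.2.1) h
      pt_X := fun ω ω' h h' e l hl => hC.X_pt ω ω' (hA ω h) (hA ω' h') e l hl
      str := fun ω h l hl => hC.str ω (hA ω h) l hl
      pa_deg := hC.pa_deg
      ln_w := fun ω ω' _ _ h => congrArg (fun s : Ln2 F => s.2.2) h
      c_wn := fun i hi j hj ω ω' _ _ h => ?_
      c_i := fun i hi j hj ω ω' _ _ h => lab2_lab2 C le_rfl (by omega) (hwj j hj) h
      c_ij := fun i hi j hj ω ω' _ _ h =>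
        lab2_lab2 C (Nat.le_succ j) (by omega) (hwj (j + 1) hj) h
      i_few := ifew
      ij_few := ijfew
      c_T := fun i hi j hj ω ω' _ _ h => congrArg (·.2) h
      P_deg := fun i j x l => ?_
      P_tri := fun i j x l => ?_
      s_pt := fun i hi j hj ω ω' _ _ h => congrArg (C.s i j) h
      s_c := fun i hi j hj ω ω' h h' e => ?_
      G_deg := fun i j x l => ?_
      G_tri := fun i j x l => ?_
      net := fun i hi j hj C' hC' Y y hy hb => ?_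
      lam_ge := hN.lam_ge
      gam_ge := hN.gam_ge
      g_zero := fun i j => nd2_g0 C X pa w₀ z M g
      hom := fun i hi j hj l h1 hl => ?_
      g_ge := fun i hi j hj l h1 hl => ?_
      g_le := fun i hi j hj l h1 hl => ?_
      hgt := fun i hi j hj ω hω l hl => ?_
      pos := fun i hi j hj ω hω l h1 hl => ?_
      agr := fun i hi j hj ω hω l h1 hl b hb => ?_
      full := fun i hi j hj U hU => ?_ }
  · have h1 : F.l ω = F.l ω' := congrArg (fun s => s.1.1) h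
    have h2 : F.Z ω = F.Z ω' := congrArg (fun s => s.1.2.1) h
    have h3 : F.T ω / 2 ^ (J - (w₀ + j * z)) = F.T ω' / 2 ^ (J - (w₀ + j * z)) :=
      congrArg (fun s => s.2) h
    refine lab2_slam C (hwj j hj) ?_
    unfold slam Fam.T1
    rw [h1, h2, h3]
  · change (if l = 0 then MvPolynomial.C ((x.2 : ℝ) / 2 ^ (w₀ + j * z)) else
      if l ≤ n ∧ i ≤ M ∧ j ≤ M then
        match x.1 i j with
        | some y => C.P i j y l
        | none => 0
      else 0).totalDegree ≤ K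
    by_cases h0 : l = 0
    · rw [if_pos h0, totalDegree_C]
      exact Nat.zero_le K
    · rw [if_neg h0]
      by_cases h1 : l ≤ n ∧ i ≤ M ∧ j ≤ M
      · rw [if_pos h1]
        cases x.1 i j with
        | none => simp only [totalDegree_zero]; exact Nat.zero_le K
        | some y => exact hC.Pdeg i h1.2.1 j h1.2.2 y l (by omega) h1.1
      · rw [if_neg h1, totalDegree_zero]
        exact Nat.zero_le K
  · change (if l = 0 then MvPolynomial.C ((x.2 : ℝ) / 2 ^ (w₀ + j * z)) else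
      if l ≤ n ∧ i ≤ M ∧ j ≤ M then
        match x.1 i j with
        | some y => C.P i j y l
        | none => 0
      else 0).vars ⊆ range l
    by_cases h0 : l = 0
    · rw [if_pos h0, vars_C]
      exact empty_subset _
    · rw [if_neg h0]
      by_cases h1 : l ≤ n ∧ i ≤ M ∧ j ≤ M
      · rw [if_pos h1]
        cases x.1 i j with
        | none => simp only [vars_0]; exact empty_subset _
        | some y => exact hC.Ptri i h1.2.1 j h1.2.2 y l (by omega) h1.1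
      · rw [if_neg h1, vars_0]
        exact empty_subset _
  · simp only [Prod.mk.injEq] at e
    exact hC.s_c i hi j hj ω ω' (hA ω h) (hA ω' h') e.1 e.2
  · change (if 1 ≤ l ∧ l ≤ n ∧ i ≤ M ∧ j ≤ M then C.G i j x l else 0).totalDegree ≤ K
    by_cases h1 : 1 ≤ l ∧ l ≤ n ∧ i ≤ M ∧ j ≤ M
    · rw [if_pos h1]
      exact hC.Gdeg i h1.2.2.1 j h1.2.2.2 x l h1.1 h1.2.1
    · rw [if_neg h1, totalDegree_zero]
      exact Nat.zero_le K
  · change (if 1 ≤ l ∧ l ≤ n ∧ i ≤ M ∧ j ≤ M then C.G i j x l else 0).vars ⊆ range l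
    by_cases h1 : 1 ≤ l ∧ l ≤ n ∧ i ≤ M ∧ j ≤ M
    · rw [if_pos h1]
      exact hC.Gtri i h1.2.2.1 j h1.2.2.2 x l h1.1 h1.2.1
    · rw [if_neg h1, vars_0]
      exact empty_subset _
  · refine net i hi j hj C' hC' Y y hy fun ω ω' h h' e l h1 hl b hbx => ?_
    have h3 := hb ω ω' h h' e l h1 hl b
      ((nd2_NB C X pa w₀ z M g hi hj (by omega) ω b).2 hbx)
    have e1 := hΨ i hi j hj l h1 hl ω
    have e2 := hΨ i hi j hj l h1 hl ω'
    rw [← e1, ← e2, ← hg i j l h1]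
    exact h3
  · rw [hg i j l h1, hg 0 0 l h1]
    exact hN.hom i hi j hj l h1 hl
  · rw [hg i j l h1]
    exact hN.g_ge i hi j hj l h1 hl
  · rw [hg i j l h1]
    exact hN.g_le i hi j hj l h1 hl
  · unfold NDat2.rh
    rw [hΦ i hi j hj l hl ω]
    by_cases h0 : l = 0
    · subst h0
      rw [nd2_g0]
      have h2 : C.Ph2 w₀ z i j ω 0 =
          MvPolynomial.C ((F.T1 (w₀ + j * z) ω : ℝ) / 2 ^ (w₀ + j * z)) := if_pos rfl
      have h3 : (C.nd2 X pa w₀ z M g).X ω 0 = F.t ω := hC.X_zero ω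
      rw [h2, eval_C, h3]
      -- the time and its cell
      have hw := hwj j hj
      have hJ : (0 : ℝ) < 2 ^ (J - (w₀ + j * z)) := by positivity
      have hwp : (0 : ℝ) < 2 ^ (w₀ + j * z) := by positivity
      have e1 : F.T ω = 2 ^ (J - (w₀ + j * z)) * (F.T ω / 2 ^ (J - (w₀ + j * z))) +
          F.T ω % 2 ^ (J - (w₀ + j * z)) := (Nat.div_add_mod _ _).symm
      have e2 : F.T ω % 2 ^ (J - (w₀ + j * z)) < 2 ^ (J - (w₀ + j * z)) :=
        Nat.mod_lt _ (by positivity)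
      have e3 : (2 : ℝ) ^ J = 2 ^ (J - (w₀ + j * z)) * 2 ^ (w₀ + j * z) := by
        rw [← pow_add, Nat.sub_add_cancel hw]
      have e4 : F.t ω - (F.T1 (w₀ + j * z) ω : ℝ) / 2 ^ (w₀ + j * z) =
          ((F.T ω % 2 ^ (J - (w₀ + j * z)) : ℕ) : ℝ) / 2 ^ J := by
        unfold Fam.t Fam.T1
        rw [e3]
        have e5 : (F.T ω : ℝ) = 2 ^ (J - (w₀ + j * z)) *
            ((F.T ω / 2 ^ (J - (w₀ + j * z)) : ℕ) : ℝ) +
              ((F.T ω % 2 ^ (J - (w₀ + j * z)) : ℕ) : ℝ) := by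
          exact_mod_cast e1
        rw [e5]
        field_simp
        ring
      rw [e4, abs_of_nonneg (by positivity), e3, div_le_div_iff₀ (by positivity) hwp, one_mul]
      have e6 : ((F.T ω % 2 ^ (J - (w₀ + j * z)) : ℕ) : ℝ) ≤ 2 ^ (J - (w₀ + j * z)) := by
        exact_mod_cast e2.le
      exact mul_le_mul_of_nonneg_right e6 hwp.le
    · rw [hg i j l (by omega)]
      exact hC.hgt i hi j hj ω (hA ω hω) l (by omega) hl
  · unfold NDat2.sh
    rw [hΨ i hi j hj l h1 hl ω, hg i j l h1]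
    exact hC.pos i hi j hj ω (hA ω hω) l h1 hl
  · rw [hΨ i hi j hj l h1 hl ω, hΦ i hi j hj l hl ω, hg i j l h1]
    exact hC.agr i hi j hj ω (hA ω hω) l h1 hl b
      ((nd2_NB C X pa w₀ z M g hi hj (by omega) ω b).1 hb)
  · have h1 := full i hi j hj U hU
    refine h1.trans (le_of_eq ?_)
    congr 1
    funext ω l
    exact (nd2_vd C X pa w₀ z M g hi hj ω l).symm

/-- Uniform time. -/
theorem tmU {C : CDat2 F n} {X : F.Ω → ℕ → ℝ} {pa : Ln2 F → ℕ → Polynomial ℝ} {w₀ z M : ℕ}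
    {g : ℕ → ℕ → ℕ → ℕ} {κ : ℝ} {q : F.Ω → ℝ}
    (time : ((J - w₀ : ℕ) : ℝ) * Real.log 2 - κ * z ≤ CH q F.T (slam F w₀)) :
    (C.nd2 X pa w₀ z M g).TmU J w₀ z κ q := time

end CDat2

end Pool.STAT
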