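import Pool.Agent.H63.STAT.Clo
import Pool.Agent.H68.RM.Cel

/-!
# The ladder: natural boxes of finer labels are small in all natural coordinates

Labels `P s`, `s ≤ n`, functions of nested contexts, with the precisions `g s k`,
`g (s + 1) k ≥ g s k + u`. The natural coordinates of the level `s` are full given the context of the
level `s` in the sense of entropies. Then two samples with the same context of the level `n` have
natural coordinates of the level `0` at distance at most `2 ^ (C L - u)`, off a small probability. So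
the natural digits over the label of the level `0` have few bits given the context of the level `n`.
-/

set_option autoImplicit false

namespace Pool.STAT.LAD

open Finset MvPolynomial
open Pool.Agent.H49.Ent Pool.Agent.H32.Dense Pool.STK Pool.KS3
open Pool.STAT.CLO (nc n1 n1_eq mem_ex supp_ex n1_of_cube nat_deg eval_nat)
open Pool.BFL (Pl Pb)

/-! ### Polynomials on the cube -/

theorem prod_sub_le {s : Finset ℕ} {a b : ℕ → ℝ} (ha : ∀ j ∈ s, |a j| ≤ 1)
    (hb : ∀ j ∈ s, |b j| ≤ 1) : |∏ j ∈ s, a j - ∏ j ∈ s, b j| ≤ ∑ j ∈ s, |a j - b j| := by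
  classical
  induction s using Finset.induction_on with
  | empty => simp
  | insert i s hi ih =>
    rw [Finset.prod_insert hi, Finset.prod_insert hi, Finset.sum_insert hi]
    have h1 := ih (fun j hj => ha j (mem_insert_of_mem hj)) fun j hj => hb j (mem_insert_of_mem hj)
    have e1 : a i * ∏ j ∈ s, a j - b i * ∏ j ∈ s, b j =
        (a i - b i) * ∏ j ∈ s, a j + b i * (∏ j ∈ s, a j - ∏ j ∈ s, b j) := by ring
    rw [e1]
    refine (abs_add_le _ _).trans ?_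
    rw [abs_mul, abs_mul]
    have h2 : |∏ j ∈ s, a j| ≤ 1 := by
      rw [Finset.abs_prod]
      exact Finset.prod_le_one (fun _ _ => abs_nonneg _) fun j hj => ha j (mem_insert_of_mem hj)
    have h3 := hb i (mem_insert_self _ _)
    have h4 : |a i - b i| * |∏ j ∈ s, a j| ≤ |a i - b i| * 1 :=
      mul_le_mul_of_nonneg_left h2 (abs_nonneg _)
    have h5 : |b i| * |∏ j ∈ s, a j - ∏ j ∈ s, b j| ≤ 1 * |∏ j ∈ s, a j - ∏ j ∈ s, b j| :=
      mul_le_mul_of_nonneg_right h3 (abs_nonneg _)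
    linarith

theorem pow_sub_le {a b : ℝ} (ha : |a| ≤ 1) (hb : |b| ≤ 1) (k : ℕ) :
    |a ^ k - b ^ k| ≤ k * |a - b| := by
  induction k with
  | zero => simp
  | succ k ih =>
    have e1 : a ^ (k + 1) - b ^ (k + 1) = a ^ k * (a - b) + b * (a ^ k - b ^ k) := by ring
    rw [e1]
    refine (abs_add_le _ _).trans ?_
    rw [abs_mul, abs_mul, abs_pow]
    have h1 : |a| ^ k ≤ 1 := pow_le_one₀ (abs_nonneg _) ha
    have h2 : |a| ^ k * |a - b| ≤ 1 * |a - b| := mul_le_mul_of_nonneg_right h1 (abs_nonneg _)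
    have h3 : |b| * |a ^ k - b ^ k| ≤ 1 * |a ^ k - b ^ k| :=
      mul_le_mul_of_nonneg_right hb (abs_nonneg _)
    push_cast
    linarith

/-- Lipschitz bounds on the cube. -/
theorem lip_cube (i K : ℕ) : ∃ C : ℝ, 1 ≤ C ∧ ∀ (F : PN) (S : ℝ), F.vars ⊆ range i →
    F.totalDegree ≤ K → (∀ y : ℕ → ℝ, (∀ j < i, |y j| ≤ 1) → |eval y F| ≤ S) →
    ∀ (y y' : ℕ → ℝ) (ε : ℝ), (∀ j < i, |y j| ≤ 1) → (∀ j < i, |y' j| ≤ 1) → 0 ≤ ε →
      (∀ j < i, |y j - y' j| ≤ ε) → |eval y F - eval y' F| ≤ C * S * ε := by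
  obtain ⟨C, hC, h⟩ := n1_of_cube i K
  refine ⟨C * (K + 1), by nlinarith [(Nat.cast_nonneg K : (0 : ℝ) ≤ K)], ?_⟩
  intro F S hv hK hS y y' ε hy hy' hε hd
  have h1 := h F S hv hK hS
  have hS0 : 0 ≤ S := (abs_nonneg _).trans (hS (fun _ => 0) fun j _ => by
    rw [abs_zero]; exact zero_le_one)
  have h2 : |eval y F - eval y' F| ≤ n1 F * (K * ε) := by
    rw [eval_eq, eval_eq, n1_eq, Finset.sum_mul, ← Finset.sum_sub_distrib]
    refine (Finset.abs_sum_le_sum_abs _ _).trans (Finset.sum_le_sum fun k hk => ?_)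
    rw [← mul_sub, abs_mul]
    refine mul_le_mul_of_nonneg_left ?_ (abs_nonneg _)
    have h3 := mem_ex.1 (supp_ex hv hK hk)
    have hlt : ∀ j ∈ k.support, j < i := fun j hj => mem_range.1 (h3.1 hj)
    refine (prod_sub_le (fun j hj => ?_) fun j hj => ?_).trans ?_
    · rw [abs_pow]
      exact pow_le_one₀ (abs_nonneg _) (hy j (hlt j hj))
    · rw [abs_pow]
      exact pow_le_one₀ (abs_nonneg _) (hy' j (hlt j hj))
    · calc ∑ j ∈ k.support, |y j ^ k j - y' j ^ k j| ≤ ∑ j ∈ k.support, (k j : ℝ) * ε := by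
            refine Finset.sum_le_sum fun j hj => ?_
            refine (pow_sub_le (hy j (hlt j hj)) (hy' j (hlt j hj)) _).trans ?_
            exact mul_le_mul_of_nonneg_left (hd j (hlt j hj)) (Nat.cast_nonneg _)
        _ = ((k.sum fun _ e => e : ℕ) : ℝ) * ε := by
            rw [← Finset.sum_mul]
            congr 1
            unfold Finsupp.sum
            push_cast
            rfl
        _ ≤ K * ε := mul_le_mul_of_nonneg_right (by exact_mod_cast h3.2) hε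
  have hKε : 0 ≤ (K : ℝ) * ε := by positivity
  calc |eval y F - eval y' F| ≤ n1 F * (K * ε) := h2
    _ ≤ C * S * (K * ε) := mul_le_mul_of_nonneg_right h1 hKε
    _ ≤ C * (K + 1) * S * ε := by
        have : 0 ≤ C * S * ε := by positivity
        nlinarith

/-! ### The variables `1, …, n` -/

/-- Extension by zero. -/
def ext (n : ℕ) (b : Fin n → ℝ) (j : ℕ) : ℝ :=
  if h : 1 ≤ j ∧ j ≤ n then b ⟨j - 1, by omega⟩ else 0

/-- The polynomial in the variables `1, …, n`, the other variables are zero. -/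
noncomputable def tp (n : ℕ) (F : PN) : Pl n :=
  MvPolynomial.aeval (fun j : ℕ => if h : 1 ≤ j ∧ j ≤ n then
    (X ⟨j - 1, by omega⟩ : MvPolynomial (Fin n) ℝ) else 0) F

theorem eval_tp (n : ℕ) (F : PN) (b : Fin n → ℝ) : eval b (tp n F) = eval (ext n b) F := by
  have h : tp n F = bind₁ (fun j : ℕ => if h : 1 ≤ j ∧ j ≤ n then
    (X ⟨j - 1, by omega⟩ : MvPolynomial (Fin n) ℝ) else 0) F := rfl
  rw [h, AdxRow.evl_bnd]
  congr 1
  congr 1
  funext j
  unfold ext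
  split_ifs
  · rw [eval_X]
  · rw [map_zero]

theorem deg_tp (n : ℕ) (F : PN) : (tp n F).totalDegree ≤ F.totalDegree := by
  unfold tp
  rw [MvPolynomial.aeval_def, MvPolynomial.eval₂_eq]
  refine MvPolynomial.totalDegree_finsetSum_le fun d hd => ?_
  refine (MvPolynomial.totalDegree_mul _ _).trans ?_
  have h0 : (algebraMap ℝ (MvPolynomial (Fin n) ℝ) (MvPolynomial.coeff d F)).totalDegree = 0 := by
    rw [MvPolynomial.algebraMap_eq, MvPolynomial.totalDegree_C]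
  rw [h0, zero_add]
  refine (MvPolynomial.totalDegree_finsetProd _ _).trans ?_
  refine le_trans (Finset.sum_le_sum fun i _ => ?_) (le_totalDegree hd)
  refine (MvPolynomial.totalDegree_pow _ _).trans ?_
  have h2 : (if h : 1 ≤ i ∧ i ≤ n then (X ⟨i - 1, by omega⟩ : MvPolynomial (Fin n) ℝ)
      else 0).totalDegree ≤ 1 := by
    split_ifs
    · exact (totalDegree_X _).le
    · rw [totalDegree_zero]
      exact Nat.zero_le _
  calc d i * _ ≤ d i * 1 := Nat.mul_le_mul_left _ h2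
    _ = d i := Nat.mul_one _

/-- The variable `0` is replaced by zero. -/
noncomputable def z0 (F : PN) : PN := bind₁ (fun j => if j = 0 then 0 else X j) F

theorem eval_z0 (F : PN) (y : ℕ → ℝ) :
    eval y (z0 F) = eval (fun j => if j = 0 then 0 else y j) F := by
  unfold z0
  rw [AdxRow.evl_bnd]
  congr 1
  congr 1
  funext j
  split_ifs
  · rw [map_zero]
  · rw [eval_X]

theorem vars_z0 {F : PN} {i : ℕ} (h : F.vars ⊆ range i) : (z0 F).vars ⊆ range i := by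
  refine AdxRow.vars_bnd h fun k hk => ?_
  split_ifs
  · rw [vars_0]
    exact Finset.empty_subset _
  · exact AdxRow.vars_X_le hk

theorem deg_z0 {F : PN} {K : ℕ} (h : F.totalDegree ≤ K) : (z0 F).totalDegree ≤ K := by
  unfold z0
  refine (Dgb.deg_bind (B := 1) fun k _ => ?_).trans (by omega)
  split_ifs
  · rw [totalDegree_zero]
    exact Nat.zero_le _
  · exact (totalDegree_X _).le

/-! ### The ladder -/

/-- **The data of a ladder.** -/
structure Ldr {Ω : Type} [Fintype Ω] (n K u : ℕ) {Γ : ℕ → Type} (q : Ω → ℝ) (x : Ω → ℕ → ℝ)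
    (γ : (s : ℕ) → Ω → Γ s) (P : (s : ℕ) → Γ s → ℕ → PN) (g : ℕ → ℕ → ℕ) : Prop where
  det : ∀ s < n, ∀ ω ω', 0 < q ω → 0 < q ω' → γ (s + 1) ω = γ (s + 1) ω' → γ s ω = γ s ω'
  tri : ∀ s c, TriN (P s c)
  deg : ∀ s c k, (P s c k).totalDegree ≤ K
  time : ∀ s ≤ n, ∀ ω, 0 < q ω → x ω 0 = eval (x ω) (P s (γ s ω) 0)
  fit : ∀ s ≤ n, ∀ ω, 0 < q ω → ∀ k, 1 ≤ k → k ≤ n →
    |x ω k - eval (x ω) (P s (γ s ω) k)| ≤ 1 / 2 ^ g s k
  gap : ∀ s < n, ∀ k, 1 ≤ k → k ≤ n → g s k + u ≤ g (s + 1) k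

section ladder

variable {Ω : Type} [Fintype Ω] {n K u : ℕ} {Γ : ℕ → Type} {q : Ω → ℝ} {x : Ω → ℕ → ℝ}
  {γ : (s : ℕ) → Ω → Γ s} {P : (s : ℕ) → Γ s → ℕ → PN} {g : ℕ → ℕ → ℕ}

/-- The natural coordinates of the level `s`. -/
noncomputable def ny (x : Ω → ℕ → ℝ) (γ : (s : ℕ) → Ω → Γ s) (P : (s : ℕ) → Γ s → ℕ → PN)
    (g : ℕ → ℕ → ℕ) (s : ℕ) (ω : Ω) (k : ℕ) : ℝ :=
  nc (g s) (P s (γ s ω)) (x ω) k

/-- The difference of two consecutive labels, in natural coordinates of the finer one. -/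
noncomputable def df (P : (s : ℕ) → Γ s → ℕ → PN) (g : ℕ → ℕ → ℕ) (s k : ℕ) (c₀ : Γ s)
    (c₁ : Γ (s + 1)) : PN :=
  MvPolynomial.C ((2 : ℝ) ^ g s k) * bind₁ (nuc (g (s + 1)) (P (s + 1) c₁)) (P (s + 1) c₁ k - P s c₀ k)

/-- The differences are bounded on the cube. -/
def Gd (n : ℕ) (S : ℝ) (γ : (s : ℕ) → Ω → Γ s) (P : (s : ℕ) → Γ s → ℕ → PN)
    (g : ℕ → ℕ → ℕ) (ω : Ω) : Prop :=
  ∀ s < n, ∀ k, 1 ≤ k → k ≤ n → ∀ b : Fin n → ℝ, (∀ i, |b i| ≤ 1) →
    |eval (ext n b) (df P g s k (γ s ω) (γ (s + 1) ω))| ≤ S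

variable (h : Ldr n K u q x γ P g)

include h

theorem Ldr.det' {s t : ℕ} (hst : s ≤ t) (ht : t ≤ n) {ω ω' : Ω} (hω : 0 < q ω) (hω' : 0 < q ω')
    (e : γ t ω = γ t ω') : γ s ω = γ s ω' := by
  induction t with
  | zero =>
    obtain rfl : s = 0 := by omega
    exact e
  | succ t ih =>
    rcases Nat.eq_or_lt_of_le hst with rfl | h1
    · exact e
    · exact ih (by omega) (by omega) (h.det t (by omega) ω ω' hω hω' e)

theorem Ldr.ny0 {s : ℕ} (hs : s ≤ n) {ω : Ω} (hω : 0 < q ω) : ny x γ P g s ω 0 = 0 := by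
  unfold ny CLO.nc
  rw [← h.time s hs ω hω, sub_self, mul_zero]

theorem Ldr.ny_le {s : ℕ} (hs : s ≤ n) {ω : Ω} (hω : 0 < q ω) {k : ℕ} (h1 : 1 ≤ k) (hk : k ≤ n) :
    |ny x γ P g s ω k| ≤ 1 := by
  have h2 := h.fit s hs ω hω k h1 hk
  unfold ny
  exact CLO.nc_le.2 h2

theorem Ldr.eval_df {s k : ℕ} (ω : Ω) :
    eval (ny x γ P g (s + 1) ω) (df P g s k (γ s ω) (γ (s + 1) ω)) =
      (2 : ℝ) ^ g s k * (eval (x ω) (P (s + 1) (γ (s + 1) ω) k) - eval (x ω) (P s (γ s ω) k)) := by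
  unfold df
  rw [map_mul, eval_C]
  congr 1
  have h1 := eval_nat (h.tri (s + 1) (γ (s + 1) ω)) (g (s + 1)) (x ω)
    (P (s + 1) (γ (s + 1) ω) k - P s (γ s ω) k)
  rw [map_sub] at h1
  rw [h1]
  rfl

theorem Ldr.df_vars {s k : ℕ} (hk : k ≤ n) (c₀ : Γ s) (c₁ : Γ (s + 1)) :
    (df P g s k c₀ c₁).vars ⊆ range k ∧
      (df P g s k c₀ c₁).totalDegree ≤ K * (K + 1) ^ (n + 1) := by
  have h1 := nat_deg (n := n) (h.tri (s + 1) c₁) (h.deg (s + 1) c₁) (g (s + 1)) hk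
    (AdxRow.vars_sub_le (h.tri (s + 1) c₁ k) (h.tri s c₀ k))
    ((totalDegree_sub _ _).trans (max_le (h.deg (s + 1) c₁ k) (h.deg s c₀ k)))
  unfold df
  refine ⟨AdxRow.vars_mul_le (AdxRow.vars_C_le _) h1.1, (totalDegree_mul _ _).trans ?_⟩
  rw [totalDegree_C, zero_add]
  exact h1.2

/-- The step of a natural coordinate: from the level `s` to the level `s + 1`. -/
theorem Ldr.step {s k : ℕ} (hs : s < n) (h1 : 1 ≤ k) (hk : k ≤ n) {ω ω' : Ω} (hω : 0 < q ω)
    (hω' : 0 < q ω') (e : γ (s + 1) ω = γ (s + 1) ω') :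
    |ny x γ P g s ω k - ny x γ P g s ω' k| ≤ 2 / 2 ^ u +
      |eval (ny x γ P g (s + 1) ω) (df P g s k (γ s ω) (γ (s + 1) ω)) -
        eval (ny x γ P g (s + 1) ω') (df P g s k (γ s ω) (γ (s + 1) ω))| := by
  have e0 := h.det s hs ω ω' hω hω' e
  have key : ∀ ω, 0 < q ω → |ny x γ P g s ω k -
      eval (ny x γ P g (s + 1) ω) (df P g s k (γ s ω) (γ (s + 1) ω))| ≤ 1 / 2 ^ u := by
    intro ω hω
    rw [h.eval_df ω]
    have e1 : ny x γ P g s ω k - (2 : ℝ) ^ g s k * (eval (x ω) (P (s + 1) (γ (s + 1) ω) k) -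
        eval (x ω) (P s (γ s ω) k)) =
        2 ^ g s k * (x ω k - eval (x ω) (P (s + 1) (γ (s + 1) ω) k)) := by
      unfold ny CLO.nc
      ring
    rw [e1, abs_mul, abs_of_pos (by positivity)]
    have h2 := h.fit (s + 1) hs ω hω k h1 hk
    have h3 := h.gap s hs k h1 hk
    calc (2 : ℝ) ^ g s k * |x ω k - eval (x ω) (P (s + 1) (γ (s + 1) ω) k)| ≤
          2 ^ g s k * (1 / 2 ^ g (s + 1) k) := mul_le_mul_of_nonneg_left h2 (by positivity)
      _ ≤ 2 ^ g s k * (1 / 2 ^ (g s k + u)) := by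
          refine mul_le_mul_of_nonneg_left ?_ (by positivity)
          exact one_div_le_one_div_of_le (by positivity) (pow_le_pow_right₀ (by norm_num) h3)
      _ = 1 / 2 ^ u := by
          rw [pow_add]
          field_simp
  have k1 := key ω hω
  have k2 := key ω' hω'
  rw [← e, ← e0] at k2
  have e2 : (2 : ℝ) / 2 ^ u = 1 / 2 ^ u + 1 / 2 ^ u := by ring
  rw [e2]
  obtain ⟨A, hA⟩ : ∃ A, A = eval (ny x γ P g (s + 1) ω) (df P g s k (γ s ω) (γ (s + 1) ω)) :=
    ⟨_, rfl⟩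
  obtain ⟨B, hB⟩ : ∃ B, B = eval (ny x γ P g (s + 1) ω') (df P g s k (γ s ω) (γ (s + 1) ω)) :=
    ⟨_, rfl⟩
  rw [← hA] at k1 ⊢
  rw [← hB] at k2 ⊢
  have e3 : ny x γ P g s ω k - ny x γ P g s ω' k =
      (ny x γ P g s ω k - A) + (A - B) - (ny x γ P g s ω' k - B) := by ring
  rw [e3]
  refine (abs_sub _ _).trans ?_
  have h4 := abs_add_le (ny x γ P g s ω k - A) (A - B)
  linarith

end ladder

/-- The bound of the natural coordinates. -/
noncomputable def Eb (Λ : ℝ) (u : ℕ) : ℕ → ℝ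
  | 0 => 0
  | k + 1 => 2 / 2 ^ u + Λ * Eb Λ u k

theorem Eb_nonneg {Λ : ℝ} (hΛ : 0 ≤ Λ) (u k : ℕ) : 0 ≤ Eb Λ u k := by
  induction k with
  | zero => exact le_rfl
  | succ k ih =>
    unfold Eb
    positivity

theorem Eb_mono {Λ : ℝ} (hΛ : 1 ≤ Λ) (u : ℕ) {k l : ℕ} (h : k ≤ l) : Eb Λ u k ≤ Eb Λ u l := by
  refine monotone_nat_of_le_succ (fun k => ?_) h
  have h1 := Eb_nonneg (zero_le_one.trans hΛ) u k
  have h2 : (0 : ℝ) ≤ 2 / 2 ^ u := by positivity
  show Eb Λ u k ≤ 2 / 2 ^ u + Λ * Eb Λ u k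
  nlinarith

theorem Eb_le {Λ : ℝ} (hΛ : 1 ≤ Λ) (u k : ℕ) : Eb Λ u k ≤ 2 * k * Λ ^ k / 2 ^ u := by
  induction k with
  | zero =>
    unfold Eb
    positivity
  | succ k ih =>
    have h1 : (1 : ℝ) ≤ Λ ^ (k + 1) := one_le_pow₀ hΛ
    have h2 : Λ * Eb Λ u k ≤ Λ * (2 * k * Λ ^ k / 2 ^ u) :=
      mul_le_mul_of_nonneg_left ih (by linarith)
    have h3 : (2 : ℝ) / 2 ^ u ≤ 2 * Λ ^ (k + 1) / 2 ^ u :=
      div_le_div_of_nonneg_right (by linarith) (by positivity)
    calc Eb Λ u (k + 1) = 2 / 2 ^ u + Λ * Eb Λ u k := rfl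
      _ ≤ 2 * Λ ^ (k + 1) / 2 ^ u + Λ * (2 * k * Λ ^ k / 2 ^ u) := add_le_add h3 h2
      _ = 2 * ((k + 1 : ℕ) : ℝ) * Λ ^ (k + 1) / 2 ^ u := by
          push_cast
          ring

/-- **The natural coordinates of two samples with the same context.** -/
theorem ladder (n K : ℕ) : ∃ C : ℝ, 1 ≤ C ∧ ∀ {Ω : Type} [Fintype Ω] {u : ℕ} {Γ : ℕ → Type}
    {q : Ω → ℝ} {x : Ω → ℕ → ℝ} {γ : (s : ℕ) → Ω → Γ s} {P : (s : ℕ) → Γ s → ℕ → PN}
    {g : ℕ → ℕ → ℕ} {S : ℝ}, Ldr n K u q x γ P g → 1 ≤ S → ∀ k ≤ n, ∀ s t, s + k ≤ t → t ≤ n →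
    ∀ ω ω', 0 < q ω → 0 < q ω' → Gd n S γ P g ω → γ t ω = γ t ω' →
    |ny x γ P g s ω k - ny x γ P g s ω' k| ≤ Eb (C * S) u k := by
  obtain ⟨C, hC⟩ : ∃ C : ℕ → ℝ, ∀ i, 1 ≤ C i ∧ ∀ (F : PN) (S : ℝ), F.vars ⊆ range i →
      F.totalDegree ≤ K * (K + 1) ^ (n + 1) →
      (∀ y : ℕ → ℝ, (∀ j < i, |y j| ≤ 1) → |eval y F| ≤ S) →
      ∀ (y y' : ℕ → ℝ) (ε : ℝ), (∀ j < i, |y j| ≤ 1) → (∀ j < i, |y' j| ≤ 1) → 0 ≤ ε →
        (∀ j < i, |y j - y' j| ≤ ε) → |eval y F - eval y' F| ≤ C i * S * ε := by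
    choose C hC using fun i => lip_cube i (K * (K + 1) ^ (n + 1))
    exact ⟨C, hC⟩
  have hCs : ∀ i ≤ n, C i ≤ ∑ j ∈ range (n + 1), C j := fun i hi =>
    Finset.single_le_sum (f := C) (fun j _ => zero_le_one.trans (hC j).1)
      (mem_range.2 (by omega))
  have hC1 : 1 ≤ ∑ j ∈ range (n + 1), C j := (hC 0).1.trans (hCs 0 (Nat.zero_le _))
  refine ⟨∑ j ∈ range (n + 1), C j, hC1, ?_⟩
  intro Ω _ u Γ q x γ P g S h hS k
  have hΛ : 1 ≤ (∑ j ∈ range (n + 1), C j) * S := by nlinarith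
  induction k using Nat.strong_induction_on with
  | _ k ih =>
    intro hk s t hst htn ω ω' hω hω' hG e
    rcases Nat.eq_zero_or_pos k with rfl | h1
    · rw [h.ny0 (by omega) hω, h.ny0 (by omega) hω', sub_self, abs_zero]
      exact le_rfl
    have e1 := h.det' (s := s + 1) (by omega) htn hω hω' e
    refine (h.step (by omega) h1 hk hω hω' e1).trans ?_
    obtain ⟨l, rfl⟩ : ∃ l, k = l + 1 := ⟨k - 1, by omega⟩
    show _ ≤ 2 / 2 ^ u + (∑ j ∈ range (n + 1), C j) * S * Eb ((∑ j ∈ range (n + 1), C j) * S) u l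
    refine add_le_add le_rfl ?_
    obtain ⟨f, hf⟩ : ∃ f, f = df P g s (l + 1) (γ s ω) (γ (s + 1) ω) := ⟨_, rfl⟩
    rw [← hf]
    have hfv := h.df_vars (s := s) hk (γ s ω) (γ (s + 1) ω)
    rw [← hf] at hfv
    have hE0 := Eb_nonneg (zero_le_one.trans hΛ) u l
    -- the bound on the cube
    have hsup : ∀ y : ℕ → ℝ, (∀ j < l + 1, |y j| ≤ 1) → |eval y (z0 f)| ≤ S := by
      intro y hy
      rw [eval_z0]
      have h2 := hG s (by omega) (l + 1) h1 hk (fun i => if (i : ℕ) + 1 < l + 1 then y (i + 1)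
        else 0) (fun i => by
          split_ifs with hi
          · exact hy _ hi
          · rw [abs_zero]
            exact zero_le_one)
      rw [← hf] at h2
      refine le_trans (le_of_eq ?_) h2
      congr 1
      refine AdxRow.evl_congr fun j hj => ?_
      have hj' := mem_range.1 (hfv.1 hj)
      unfold ext
      by_cases h0 : j = 0
      · subst h0
        simp
      · rw [if_neg h0, dif_pos (by omega)]
        have h3 : j - 1 + 1 = j := by omega
        simp only [h3]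
        rw [if_pos hj']
    have hz : ∀ ω, 0 < q ω → eval (ny x γ P g (s + 1) ω) f =
        eval (ny x γ P g (s + 1) ω) (z0 f) := by
      intro ω hω
      rw [eval_z0]
      refine AdxRow.evl_congr fun j hj => ?_
      by_cases h0 : j = 0
      · subst h0
        rw [if_pos rfl]
        exact h.ny0 (by omega) hω
      · rw [if_neg h0]
    rw [hz ω hω, hz ω' hω']
    have hny : ∀ ω, 0 < q ω → ∀ j < l + 1, |ny x γ P g (s + 1) ω j| ≤ 1 := by
      intro ω hω j hj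
      rcases Nat.eq_zero_or_pos j with rfl | h0
      · rw [h.ny0 (by omega) hω, abs_zero]
        exact zero_le_one
      · exact h.ny_le (by omega) hω h0 (by omega)
    refine ((hC (l + 1)).2 (z0 f) S (vars_z0 hfv.1) (deg_z0 hfv.2) hsup _ _
      (Eb ((∑ j ∈ range (n + 1), C j) * S) u l) (hny ω hω) (hny ω' hω') hE0
      fun j hj => ?_).trans ?_
    · have h4 := ih j hj (by omega) (s + 1) t (by omega) htn ω ω' hω hω' hG e
      exact h4.trans (Eb_mono hΛ u (by omega))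
    · refine mul_le_mul_of_nonneg_right ?_ hE0
      exact mul_le_mul_of_nonneg_right (hCs _ hk) (by linarith)

/-! ### Few bits -/

theorem fl_le {x y : ℝ} {a : ℝ} (h : |x - y| ≤ a) : |((⌊x⌋ - ⌊y⌋ : ℤ) : ℝ)| ≤ a + 1 := by
  push_cast
  have h1 := Int.floor_le x
  have h2 := Int.lt_floor_add_one x
  have h3 := Int.floor_le y
  have h4 := Int.lt_floor_add_one y
  rw [abs_le] at h ⊢
  constructor <;> linarith [h.1, h.2]

theorem eval_ext {F : PN} {n k : ℕ} (hv : F.vars ⊆ range k) (hk : k ≤ n + 1) {y : ℕ → ℝ}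
    (h0 : y 0 = 0) : eval (ext n fun i => y (i + 1)) F = eval y F := by
  refine AdxRow.evl_congr fun j hj => ?_
  have hj' := mem_range.1 (hv hj)
  unfold ext
  by_cases h : j = 0
  · subst h
    rw [dif_neg (by omega), h0]
  · rw [dif_pos (by omega)]
    show y (j - 1 + 1) = y j
    rw [Nat.sub_add_cancel (by omega)]

theorem Pb_mono' {Ω : Type} [Fintype Ω] {p : Ω → ℝ} (hp : ∀ ω, 0 ≤ p ω) {A B : Ω → Prop}
    (h : ∀ ω, 0 < p ω → A ω → B ω) : Pb p A ≤ Pb p B := by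
  classical
  unfold Pb
  refine Finset.sum_le_sum fun ω _ => ?_
  rcases (hp ω).eq_or_lt with h0 | h0
  · rw [← h0]
    simp
  by_cases hA : A ω
  · rw [if_pos hA, if_pos (h ω h0 hA)]
  · rw [if_neg hA]
    split_ifs
    · exact hp ω
    · exact le_rfl

/-- The differences are bounded on the cube, off a small probability. -/
theorem bad_le (n K : ℕ) : ∃ C : ℝ, 1 ≤ C ∧ ∀ {Ω : Type} [Fintype Ω] {u L : ℕ} {Γ : ℕ → Type}
    {q : Ω → ℝ} {x : Ω → ℕ → ℝ} {γ : (s : ℕ) → Ω → Γ s} {P : (s : ℕ) → Γ s → ℕ → PN}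
    {g : ℕ → ℕ → ℕ} {δ : ℝ}, IsLaw q → Ldr n K u q x γ P g → 1 ≤ L →
    (∀ s, 1 ≤ s → s ≤ n → (n - δ) * (L * Real.log 2) ≤
      CH q (fun ω (i : Fin n) => ⌊(2 : ℝ) ^ L * ny x γ P g s ω (i + 1)⌋)
        (fun ω => ((fun i : Fin n => ⌊ny x γ P g s ω (i + 1)⌋), γ s ω))) →
    ∀ s < n, ∀ k, 1 ≤ k → k ≤ n → Pb q (fun ω => ¬ ∀ b : Fin n → ℝ, (∀ i, |b i| ≤ 1) →
      |eval (ext n b) (df P g s k (γ s ω) (γ (s + 1) ω))| ≤
        C * 2 ^ (n * (K * (K + 1) ^ (n + 1)) * L)) ≤ δ + C / L := by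
  obtain ⟨C, hC, hrm⟩ := Pool.RM.rm_cel n (K * (K + 1) ^ (n + 1)) 2 (by norm_num)
  refine ⟨C * 2, by linarith, ?_⟩
  intro Ω _ u L Γ q x γ P g δ hq h hL hfull s hs k h1 hk
  have key := hrm Ω (Γ s × Γ (s + 1)) q L (fun _ _ => 0)
    (fun ω (i : Fin n) => ny x γ P g (s + 1) ω (i + 1)) (fun ω => (γ s ω, γ (s + 1) ω))
    (fun c => tp n (df P g s k c.1 c.2)) (fun _ => True) (fun _ => 2) δ hq
    (fun c => (deg_tp _ _).trans (h.df_vars hk c.1 c.2).2) hL (fun _ => by norm_num) ?_ ?_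
  · have hLr : (1 : ℝ) ≤ L := by exact_mod_cast hL
    have e1 : C / L ≤ C * 2 / L := div_le_div_of_nonneg_right (by linarith) (by linarith)
    refine le_trans (Pb_mono' hq.nonneg fun ω hω hb => ?_) (key.trans (by linarith))
    refine ⟨trivial, fun hall => hb fun b hb1 => ?_⟩
    have h2 := hall b fun i => by
      have h3 := h.ny_le (s := s + 1) (by omega) hω (k := (i : ℕ) + 1) (by omega)
        (by have := i.2; omega)
      have h4 := hb1 i
      rw [pow_zero, div_one]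
      rw [abs_le] at h3 h4 ⊢
      constructor <;> linarith [h3.1, h3.2, h4.1, h4.2]
    rw [eval_tp] at h2
    refine h2.trans (le_of_eq ?_)
    ring
  · have h2 := hfull (s + 1) (by omega) (by omega)
    refine h2.trans (le_of_eq ?_)
    refine CH_congr hq.nonneg ?_ ?_ ?_ ?_
    · intro ω ω' _ _ e
      simp only [Prod.mk.injEq] at e
      simp only [zero_add]
      exact e.1
    · intro ω ω' _ _ e
      simp only [Prod.mk.injEq, zero_add] at e
      exact e.1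
    · intro ω ω' a b e
      simp only [Prod.mk.injEq, pow_zero, one_mul] at e ⊢
      exact ⟨e.1, h.det s hs ω ω' a b e.2, e.2⟩
    · intro ω ω' _ _ e
      simp only [Prod.mk.injEq, pow_zero, one_mul] at e ⊢
      exact ⟨e.1, e.2.2⟩
  · intro ω hω _
    rw [eval_tp]
    have h2 := eval_ext (n := n) (h.df_vars hk (γ s ω) (γ (s + 1) ω)).1 (by omega)
      (h.ny0 (s := s + 1) (by omega) hω)
    have h3 : (fun i : Fin n => ny x γ P g (s + 1) ω (i + 1)) =
      fun i : Fin n => ny x γ P g (s + 1) ω ((i : ℕ) + 1) := rfl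
    rw [h2, h.eval_df ω, abs_mul, abs_of_pos (by positivity)]
    have f1 := h.fit (s + 1) hs ω hω k h1 hk
    have f2 := h.fit s (by omega) ω hω k h1 hk
    have f3 : (1 : ℝ) / 2 ^ g (s + 1) k ≤ 1 / 2 ^ g s k :=
      one_div_le_one_div_of_le (by positivity) (pow_le_pow_right₀ (by norm_num)
        ((Nat.le_add_right _ _).trans (h.gap s hs k h1 hk)))
    have f4 : |eval (x ω) (P (s + 1) (γ (s + 1) ω) k) - eval (x ω) (P s (γ s ω) k)| ≤
        2 / 2 ^ g s k := by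
      have e1 : (2 : ℝ) / 2 ^ g s k = 1 / 2 ^ g s k + 1 / 2 ^ g s k := by ring
      rw [e1]
      rw [abs_le] at f1 f2 ⊢
      constructor <;> linarith [f1.1, f1.2, f2.1, f2.2]
    calc (2 : ℝ) ^ g s k * |eval (x ω) (P (s + 1) (γ (s + 1) ω) k) - eval (x ω) (P s (γ s ω) k)| ≤
          2 ^ g s k * (2 / 2 ^ g s k) := mul_le_mul_of_nonneg_left f4 (by positivity)
      _ = 2 := by field_simp

/-- **Few bits**: the natural digits of the level `0` given the context of the level `n`. -/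
theorem lad_few (n K : ℕ) : ∃ (C : ℝ) (a : ℕ), 1 ≤ C ∧ ∀ {Ω : Type} [Fintype Ω] {u u' L : ℕ}
    {Γ : ℕ → Type} {q : Ω → ℝ} {x : Ω → ℕ → ℝ} {γ : (s : ℕ) → Ω → Γ s}
    {P : (s : ℕ) → Γ s → ℕ → PN} {g : ℕ → ℕ → ℕ} {δ : ℝ}, IsLaw q → Ldr n K u q x γ P g →
    1 ≤ L → u' + a * L ≤ u →
    (∀ s, 1 ≤ s → s ≤ n → (n - δ) * (L * Real.log 2) ≤
      CH q (fun ω (i : Fin n) => ⌊(2 : ℝ) ^ L * ny x γ P g s ω (i + 1)⌋)
        (fun ω => ((fun i : Fin n => ⌊ny x γ P g s ω (i + 1)⌋), γ s ω))) →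
    CH q (fun ω (i : Fin n) => ⌊(2 : ℝ) ^ u' * ny x γ P g 0 ω (i + 1)⌋) (γ n) ≤
      n * (Real.log 5 + n ^ 2 * (δ + C / L) * ((u' + 4) * Real.log 2)) := by
  classical
  obtain ⟨C, hC, hbad⟩ := bad_le n K
  obtain ⟨C₁, hC₁, hlad⟩ := ladder n K
  obtain ⟨N, hN⟩ : ∃ N, N = n * (K * (K + 1) ^ (n + 1)) := ⟨_, rfl⟩
  rw [← hN] at hbad
  -- the exponent of the loss
  obtain ⟨e, he⟩ := pow_unbounded_of_one_lt (2 * n * (C₁ * C) ^ n) (one_lt_two (α := ℝ))
  refine ⟨C, e + N * n, hC, ?_⟩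
  intro Ω _ u u' L Γ q x γ P g δ hq h hL hu hfull
  have hLr : (1 : ℝ) ≤ L := by exact_mod_cast hL
  obtain ⟨S, hS⟩ : ∃ S, S = C * 2 ^ (N * L) := ⟨_, rfl⟩
  have hS1 : 1 ≤ S := by
    rw [hS]
    have : (1 : ℝ) ≤ 2 ^ (N * L) := one_le_pow₀ (by norm_num)
    nlinarith
  have hΛ : 1 ≤ C₁ * S := by nlinarith
  have hEn : (2 : ℝ) ^ u' * Eb (C₁ * S) u n ≤ 1 := by
    have h1 := Eb_le hΛ u n
    have h2 : (C₁ * S) ^ n = (C₁ * C) ^ n * 2 ^ (N * n * L) := by
      rw [hS, ← mul_assoc, mul_pow, ← pow_mul]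
      congr 2
      ring
    have h3 : (2 : ℝ) ^ u' * (2 * n * (C₁ * S) ^ n / 2 ^ u) ≤ 1 := by
      rw [mul_div_assoc', div_le_one (by positivity), h2]
      calc (2 : ℝ) ^ u' * (2 * n * ((C₁ * C) ^ n * 2 ^ (N * n * L))) =
            2 ^ u' * (2 * n * (C₁ * C) ^ n) * 2 ^ (N * n * L) := by ring
        _ ≤ 2 ^ u' * 2 ^ (e * L) * 2 ^ (N * n * L) := by
            refine mul_le_mul_of_nonneg_right ?_ (by positivity)
            refine mul_le_mul_of_nonneg_left ?_ (by positivity)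
            refine he.le.trans (pow_le_pow_right₀ (by norm_num) ?_)
            nlinarith
        _ = 2 ^ (u' + (e + N * n) * L) := by rw [← pow_add, ← pow_add]; congr 1; ring
        _ ≤ 2 ^ u := pow_le_pow_right₀ (by norm_num) hu
    exact (mul_le_mul_of_nonneg_left h1 (by positivity)).trans h3
  have hdet : ∀ ω ω', 0 < q ω → 0 < q ω' → γ n ω = γ n ω' → ∀ s ≤ n, γ s ω = γ s ω' :=
    fun ω ω' a b c s hs => h.det' hs le_rfl a b c
  -- the count
  have hv := CH_le_vec hq.nonneg hq.sum_one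
    (fun ω (i : Fin n) => ⌊(2 : ℝ) ^ u' * ny x γ P g 0 ω (i + 1)⌋) (γ n)
    (fun ω => if Gd n S γ P g ω then 2 else 2 ^ (u' + 1) + 1) (fun ω ω' a b c i => by
      have hi : (i : ℕ) + 1 ≤ n := i.2
      split_ifs with hG
      · have h1 := hlad h hS1 ((i : ℕ) + 1) hi 0 n (by omega) le_rfl ω ω' a b hG c
        have h2 : |(2 : ℝ) ^ u' * ny x γ P g 0 ω (i + 1) - 2 ^ u' * ny x γ P g 0 ω' (i + 1)| ≤
            1 := by
          rw [← mul_sub, abs_mul, abs_of_pos (by positivity)]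
          refine (mul_le_mul_of_nonneg_left (h1.trans (Eb_mono hΛ u hi)) (by positivity)).trans
            hEn
        have h3 := Pool.STAT.LAD.fl_le h2
        linarith
      · have h1 := h.ny_le (s := 0) (Nat.zero_le _) a (k := (i : ℕ) + 1) (by omega) hi
        have h1' := h.ny_le (s := 0) (Nat.zero_le _) b (k := (i : ℕ) + 1) (by omega) hi
        have h2 : |(2 : ℝ) ^ u' * ny x γ P g 0 ω (i + 1) - 2 ^ u' * ny x γ P g 0 ω' (i + 1)| ≤
            2 ^ (u' + 1) := by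
          rw [← mul_sub, abs_mul, abs_of_pos (by positivity), pow_succ]
          refine mul_le_mul_of_nonneg_left ?_ (by positivity)
          rw [abs_le] at h1 h1' ⊢
          constructor <;> linarith [h1.1, h1.2, h1'.1, h1'.2]
        exact Pool.STAT.LAD.fl_le h2)
  refine hv.trans (mul_le_mul_of_nonneg_left ?_ (Nat.cast_nonneg _))
  have hl2 : 0 < Real.log 2 := Real.log_pos (by norm_num)
  obtain ⟨Bd, hBd⟩ : ∃ Bd : ℕ × ℕ → Ω → Prop, Bd = fun p ω => ¬ ∀ b : Fin n → ℝ,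
      (∀ i, |b i| ≤ 1) → |eval (ext n b) (df P g p.1 (p.2 + 1) (γ p.1 ω) (γ (p.1 + 1) ω))| ≤ S :=
    ⟨_, rfl⟩
  have hstep : Ex q (fun ω => Real.log (2 * (if Gd n S γ P g ω then 2 else 2 ^ (u' + 1) + 1) +
      1)) ≤ Ex q (fun ω => Real.log 5 + ∑ p ∈ range n ×ˢ range n,
        (if Bd p ω then 1 else 0) * ((u' + 4) * Real.log 2)) := by
    refine Ex_mono hq.nonneg fun ω _ => ?_
    have h0 : 0 ≤ ∑ p ∈ range n ×ˢ range n,
        (if Bd p ω then (1 : ℝ) else 0) * ((u' + 4) * Real.log 2) := by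
      refine Finset.sum_nonneg fun p _ => ?_
      split_ifs <;> positivity
    split_ifs with hG
    · have : Real.log (2 * 2 + 1) = Real.log 5 := by norm_num
      linarith
    · -- a bad pair
      unfold Gd at hG
      push Not at hG
      obtain ⟨s, hs, k, k1, kn, b, hb, hlt⟩ := hG
      obtain ⟨k, rfl⟩ : ∃ k', k = k' + 1 := ⟨k - 1, by omega⟩
      have hmem : (s, k) ∈ range n ×ˢ range n := by
        rw [Finset.mem_product, mem_range, mem_range]
        exact ⟨hs, by show k < n; omega⟩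
      have hB : Bd (s, k) ω := by
        rw [hBd]
        exact fun hall => absurd (hall b hb) (not_le.2 hlt)
      have h1 : (if Bd (s, k) ω then (1 : ℝ) else 0) * ((u' + 4) * Real.log 2) ≤
          ∑ p ∈ range n ×ˢ range n, (if Bd p ω then (1 : ℝ) else 0) *
            ((u' + 4) * Real.log 2) := by
        refine Finset.single_le_sum (f := fun p => (if Bd p ω then (1 : ℝ) else 0) *
          ((u' + 4) * Real.log 2)) (fun p _ => ?_) hmem
        show 0 ≤ (if Bd p ω then (1 : ℝ) else 0) * ((u' + 4) * Real.log 2)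
        split_ifs <;> positivity
      rw [if_pos hB, one_mul] at h1
      have h2 : Real.log (2 * (2 ^ (u' + 1) + 1) + 1) ≤ (u' + 4) * Real.log 2 := by
        have e1 : ((u' : ℝ) + 4) * Real.log 2 = Real.log (2 ^ (u' + 4)) := by
          rw [Real.log_pow]
          push_cast
          ring
        rw [e1]
        refine Real.log_le_log (by positivity) ?_
        have h3 : (1 : ℝ) ≤ 2 ^ u' := one_le_pow₀ (by norm_num)
        rw [pow_succ, pow_add]
        nlinarith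
      have h4 : 0 ≤ Real.log 5 := Real.log_nonneg (by norm_num)
      linarith
  refine hstep.trans ?_
  rw [Ex_add, Ex_const hq.sum_one]
  refine add_le_add le_rfl ?_
  have hEx : Ex q (fun ω => ∑ p ∈ range n ×ˢ range n, (if Bd p ω then (1 : ℝ) else 0) *
      ((u' + 4) * Real.log 2)) = ∑ p ∈ range n ×ˢ range n, Pb q (Bd p) *
        ((u' + 4) * Real.log 2) := by
    unfold Ex Pb
    simp only [Finset.mul_sum, Finset.sum_mul]
    rw [Finset.sum_comm]
    refine Finset.sum_congr rfl fun p _ => Finset.sum_congr rfl fun ω _ => ?_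
    split_ifs <;> ring
  rw [hEx]
  calc ∑ p ∈ range n ×ˢ range n, Pb q (Bd p) * ((u' + 4) * Real.log 2) ≤
        ∑ p ∈ range n ×ˢ range n, (δ + C / L) * ((u' + 4) * Real.log 2) := by
        refine Finset.sum_le_sum fun p hp => ?_
        rw [Finset.mem_product, mem_range, mem_range] at hp
        refine mul_le_mul_of_nonneg_right ?_ (by positivity)
        have h1 := hbad hq h hL hfull p.1 hp.1 (p.2 + 1) (by omega) (by omega)
        rw [← hS] at h1
        rw [hBd]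
        exact h1
    _ = n ^ 2 * (δ + C / L) * ((u' + 4) * Real.log 2) := by
        rw [Finset.sum_const, Finset.card_product, Finset.card_range, nsmul_eq_mul]
        push_cast
        ring

end Pool.STAT.LAD
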